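import Pool.Agent.Y128.RT.Lie

/-!
# Forms killed by the symplectic Lie algebras of the classes
-/

set_option linter.unusedSectionVars false

namespace Pool.Agent.Y128.RT

open Module Equiv Pool.Agent.H204R3.SP Pool.Agent.H204R3.GP Pool.Agent.W529.Ta
  Pool.Agent.TH131.GHC Pool.Agent.Y128.GT

noncomputable section

variable {K : Type} [Field K] [CharZero K] {X : Type} [AddCommGroup X] [Module K X]
  {Γ : Type} [Group Γ] {R : Representation K Γ X} {χ : Γ →* K}
  {ι Q : Type} [Fintype ι] [DecidableEq ι] [Fintype Q] [DecidableEq Q] (Fr : Frame R χ ι Q)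

/-- The relation satisfied by the coefficients. -/
theorem rel_of_kill {κ : Type} [Fintype κ] [DecidableEq κ]
    (φ : MultilinearMap K (fun _ : κ => X) K)
    (hφ : ∀ a b, Fr.cls a = Fr.cls b → dF (SS Fr.ω (Fr.e a) (Fr.e b)) φ = 0)
    {b c : ι} (hbc : Fr.cls b = Fr.cls c) (I : κ → ι) :
    ∑ k, (JJ Fr.inv (jj K Fr.sg) b (I k) * φ (fun l => Fr.e (Function.update I k c l)) +
      JJ Fr.inv (jj K Fr.sg) c (I k) * φ (fun l => Fr.e (Function.update I k b l))) = 0 := by
  have h3 := congrArg (fun ψ : MultilinearMap K (fun _ : κ => X) K => ψ (fun k => Fr.e (I k)))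
    (hφ b c hbc)
  rw [zero_apply, dF_apply] at h3
  rw [← h3]
  refine Finset.sum_congr rfl fun k _ => ?_
  rw [SS_apply, Fr.hω, Fr.hω, MultilinearMap.map_update_add, MultilinearMap.map_update_smul,
    MultilinearMap.map_update_smul, smul_eq_mul, smul_eq_mul]
  have h4 : ∀ z : ι, φ (fun l => Fr.e (Function.update I k z l)) =
      φ (Function.update (fun k => Fr.e (I k)) k (Fr.e z)) := by
    intro z
    congr 1
    funext l
    by_cases hl : l = k
    · subst hl
      rw [Function.update_self, Function.update_self]
    · rw [Function.update_of_ne hl, Function.update_of_ne hl]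
  rw [h4, h4]

/-- **The first fundamental theorem.** -/
theorem fft_mem {m : ℕ} (φ : MultilinearMap K (fun _ : Fin m × Fin 2 => X) K)
    (hφ : ∀ a b, Fr.cls a = Fr.cls b → dF (SS Fr.ω (Fr.e a) (Fr.e b)) φ = 0) :
    φ ∈ Submodule.span K (PT R χ m) := by
  classical
  have hcls : ∀ x y, Fr.cls x = Fr.cls y → Fr.cls (Fr.inv x) = Fr.cls (Fr.inv y) := by
    intro x y h
    rw [Fr.cls_inv, Fr.cls_inv, h]
  let coef : MultilinearMap K (fun _ : Fin m × Fin 2 => X) K →ₗ[K] ((Fin m × Fin 2 → ι) → K) :=
    { toFun := fun φ I => φ (fun k => Fr.e (I k))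
      map_add' := fun _ _ => rfl
      map_smul' := fun _ _ => rfl }
  have hinj : Function.Injective coef := fun φ φ' h =>
    Basis.ext_multilinear (fun _ => Fr.e) fun I => congrFun h I
  let F : (Fin m × Fin 2 → Q) → ((Fin m × Fin 2 → ι) → K) := fun t I =>
    if (fun k => Fr.cls (I k)) = t then coef φ I else 0
  have hF : coef φ = ∑ t, F t := by
    funext I
    rw [Finset.sum_apply]
    simp only [F]
    rw [Finset.sum_ite_eq, if_pos (Finset.mem_univ _)]
  have hFt : ∀ t, F t ∈ InvG Fr.cls Fr.inv (jj K Fr.sg) (Fin m × Fin 2) t := by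
    intro t
    refine ⟨fun b c hbc I => ?_, fun I hI k => ?_⟩
    · rw [Fr.cls_inv] at hbc
      have htype : ∀ (k : Fin m × Fin 2) (z : ι), Fr.cls (I k) = Fr.cls z →
          (fun l => Fr.cls (Function.update I k z l)) = fun l => Fr.cls (I l) := by
        intro k z hz
        funext l
        by_cases hl : l = k
        · subst hl
          rw [Function.update_self, hz]
        · rw [Function.update_of_ne hl]
      have h1 : ∀ k, JJ Fr.inv (jj K Fr.sg) b (I k) * F t (Function.update I k c) +
          JJ Fr.inv (jj K Fr.sg) c (I k) * F t (Function.update I k b) =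
          if (fun k => Fr.cls (I k)) = t then
            JJ Fr.inv (jj K Fr.sg) b (I k) * coef φ (Function.update I k c) +
            JJ Fr.inv (jj K Fr.sg) c (I k) * coef φ (Function.update I k b) else 0 := by
        intro k
        have e1 : JJ Fr.inv (jj K Fr.sg) b (I k) * F t (Function.update I k c) =
            if (fun k => Fr.cls (I k)) = t then JJ Fr.inv (jj K Fr.sg) b (I k) *
              coef φ (Function.update I k c) else 0 := by
          by_cases h : I k = Fr.inv b
          · have h2 := htype k c (by rw [h, Fr.cls_inv, hbc])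
            simp only [F]
            rw [h2]
            split_ifs
            · rfl
            · rw [mul_zero]
          · have h2 : JJ Fr.inv (jj K Fr.sg) b (I k) = 0 := by
              unfold JJ
              rw [if_neg h]
            rw [h2, zero_mul, zero_mul]
            split_ifs <;> rfl
        have e2 : JJ Fr.inv (jj K Fr.sg) c (I k) * F t (Function.update I k b) =
            if (fun k => Fr.cls (I k)) = t then JJ Fr.inv (jj K Fr.sg) c (I k) *
              coef φ (Function.update I k b) else 0 := by
          by_cases h : I k = Fr.inv c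
          · have h2 := htype k b (by rw [h, Fr.cls_inv, hbc])
            simp only [F]
            rw [h2]
            split_ifs
            · rfl
            · rw [mul_zero]
          · have h2 : JJ Fr.inv (jj K Fr.sg) c (I k) = 0 := by
              unfold JJ
              rw [if_neg h]
            rw [h2, zero_mul, zero_mul]
            split_ifs <;> rfl
        rw [e1, e2]
        split_ifs
        · rfl
        · rw [add_zero]
      rw [Finset.sum_congr rfl (fun k _ => h1 k)]
      by_cases hI : (fun k => Fr.cls (I k)) = t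
      · simp only [if_pos hI]
        exact rel_of_kill Fr φ hφ hbc I
      · simp only [if_neg hI]
        exact Finset.sum_const_zero
    · by_contra h
      apply hI
      simp only [F]
      rw [if_neg]
      rintro rfl
      exact h rfl
  have h1 : coef φ ∈ MatG Fr.cls Fr.inv (jj K Fr.sg) (Fin m × Fin 2) m := by
    rw [hF]
    exact Submodule.sum_mem _ fun t _ => fftG Fr.inv_inv Fr.jj_inv Fr.jj_ne hcls m (Fin m × Fin 2)
      (by simp [mul_comm]) t (hFt t)
  have h3 : MatG Fr.cls Fr.inv (jj K Fr.sg) (Fin m × Fin 2) m ≤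
      (Submodule.span K (PT R χ m)).map coef := by
    unfold MatG
    rw [Submodule.span_le]
    rintro _ ⟨σ, c, rfl⟩
    refine ⟨mmG σ (fun l => Fr.om (c l)), Submodule.subset_span ⟨σ, _, fun l => Fr.om_tate _, rfl⟩,
      ?_⟩
    funext I
    change mmG σ (fun l => Fr.om (c l)) (fun k => Fr.e (I k)) = _
    rw [mmG_apply]
    exact Finset.prod_congr rfl fun s _ => Fr.om_e _ _ _
  obtain ⟨φ', hφ', hφφ⟩ := h3 h1
  rw [← hinj hφφ]
  exact hφ'

/-- The number of variables is even. -/
theorem fft_odd {κ : Type} [Fintype κ] [DecidableEq κ] (hodd : Odd (Fintype.card κ))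
    (φ : MultilinearMap K (fun _ : κ => X) K)
    (hφ : ∀ a b, Fr.cls a = Fr.cls b → dF (SS Fr.ω (Fr.e a) (Fr.e b)) φ = 0) : φ = 0 := by
  classical
  refine Basis.ext_multilinear (fun _ => Fr.e) fun I => ?_
  rw [zero_apply]
  by_contra hne
  -- the numbers of the occurrences of `a` and `inv a` are equal
  have hcard : ∀ a, (Finset.univ.filter (fun k => I k = a)).card =
      (Finset.univ.filter (fun k => I k = Fr.inv a)).card := by
    intro a
    have h1 := rel_of_kill Fr φ hφ (b := a) (c := Fr.inv a) (Fr.cls_inv a).symm I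
    have h2 : ∀ k, JJ Fr.inv (jj K Fr.sg) a (I k) *
        φ (fun l => Fr.e (Function.update I k (Fr.inv a) l)) +
        JJ Fr.inv (jj K Fr.sg) (Fr.inv a) (I k) * φ (fun l => Fr.e (Function.update I k a l)) =
        ((if I k = Fr.inv a then 1 else 0) - (if I k = a then 1 else 0)) *
          (jj K Fr.sg a * φ (fun l => Fr.e (I l))) := by
      intro k
      unfold JJ
      rw [Fr.inv_inv, Fr.jj_inv]
      by_cases h3 : I k = Fr.inv a
      · have h4 : I k ≠ a := by
          rw [h3]
          exact Fr.inv_ne a
        rw [if_pos h3, if_neg h4, if_pos h3, if_neg h4, ← h3, Function.update_eq_self]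
        ring
      · by_cases h4 : I k = a
        · rw [if_neg h3, if_pos h4, if_neg h3, if_pos h4]
          have h5 : Function.update I k a = I := by
            rw [← h4, Function.update_eq_self]
          rw [h5]
          ring
        · rw [if_neg h3, if_neg h4, if_neg h3, if_neg h4]
          ring
    rw [Finset.sum_congr rfl (fun k _ => h2 k), ← Finset.sum_mul, Finset.sum_sub_distrib,
      Finset.sum_boole, Finset.sum_boole] at h1
    have h3 := (mul_eq_zero.1 h1).resolve_right (mul_ne_zero (Fr.jj_ne a) hne)
    rw [sub_eq_zero] at h3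
    exact_mod_cast h3.symm
  have h1 : (Fintype.card κ) = ∑ a : ι, (Finset.univ.filter (fun k => I k = a)).card := by
    rw [← Finset.card_univ]
    exact Finset.card_eq_sum_card_fiberwise (fun _ _ => Finset.mem_univ _)
  have h2 : ∑ a : ι, (Finset.univ.filter (fun k => I k = a)).card =
      2 * ∑ a ∈ Finset.univ.filter (fun a => Fr.sg a = true),
        (Finset.univ.filter (fun k => I k = a)).card := by
    rw [← Finset.sum_filter_add_sum_filter_not Finset.univ (fun a => Fr.sg a = true), two_mul]
    congr 1
    refine Finset.sum_bij (fun a _ => Fr.inv a) ?_ ?_ ?_ ?_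
    · intro a ha
      rw [Finset.mem_filter] at ha ⊢
      refine ⟨Finset.mem_univ _, ?_⟩
      rw [Fr.sg_inv]
      simpa using ha.2
    · intro a _ b _ hab
      rw [← Fr.inv_inv a, hab, Fr.inv_inv]
    · intro b hb
      rw [Finset.mem_filter] at hb
      refine ⟨Fr.inv b, ?_, Fr.inv_inv b⟩
      rw [Finset.mem_filter]
      refine ⟨Finset.mem_univ _, ?_⟩
      rw [Fr.sg_inv, hb.2]
      decide
    · intro a _
      exact hcard a
  rw [h1, h2] at hodd
  exact (Nat.not_odd_iff_even.2 (even_two_mul _)) hodd

end

end Pool.Agent.Y128.RT
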