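import Pool.Agent.Y128.RT.Lie2

/-!
# An element of the Lie algebra of an operator of infinite order
-/

set_option linter.unusedSectionVars false

namespace Pool.Agent.Y128.RT

open Module Polynomial Pool.Agent.H204R3.SP Pool.Agent.H204R3.GP Pool.Agent.W529.Ta
  Pool.Agent.Y128.GT

noncomputable section

variable {K : Type} [Field K] [CharZero K] {X : Type} [AddCommGroup X] [Module K X]

theorem mem_of_adjoin {T A : Module.End K X} (hA : A ∈ Algebra.adjoin K {T}) {W : Submodule K X}
    (hW : ∀ w ∈ W, T w ∈ W) : ∀ w ∈ W, A w ∈ W := by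
  induction hA using Algebra.adjoin_induction with
  | mem x hx =>
    rw [Set.mem_singleton_iff] at hx
    subst hx
    exact hW
  | algebraMap r =>
    intro w hw
    rw [Module.algebraMap_end_apply]
    exact W.smul_mem r hw
  | add x y _ _ hx hy =>
    intro w hw
    exact W.add_mem (hx w hw) (hy w hw)
  | mul x y _ _ hx hy =>
    intro w hw
    exact hx _ (hy w hw)

theorem sub_one_mem' {A : Type} [Ring A] [Algebra K A] {t a : A}
    (ha : a ∈ Algebra.adjoin K {t}) : a - 1 ∈ Algebra.adjoin K {t} :=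
  (Algebra.adjoin K {t}).sub_mem ha (Algebra.adjoin K {t}).one_mem

theorem sum_pow_mem {A : Type} [Ring A] [Algebra K A] {t a : A}
    (ha : a ∈ Algebra.adjoin K {t}) (D : ℕ) (c : Fin D → K) :
    ∑ j : Fin D, c j • a ^ (j : ℕ) ∈ Algebra.adjoin K {t} :=
  (Algebra.adjoin K {t}).sum_mem fun j _ =>
    (Algebra.adjoin K {t}).smul_mem ((Algebra.adjoin K {t}).pow_mem ha _) _

/-- Fixed forms of a power. -/
theorem TT_fix_pow {κ : Type} [Fintype κ] [DecidableEq κ] {T : Module.End K X}
    {φ : MultilinearMap K (fun _ : κ => X) K} (hφ : TT T φ = φ) (N : ℕ) : TT (T ^ N) φ = φ := by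
  rw [TT_pow]
  induction N with
  | zero => rfl
  | succ k ih => rw [pow_succ, Module.End.mul_apply, hφ, ih]

/-- **The case of an eigenvalue of infinite order.** -/
theorem inf_one [IsAlgClosed K] [FiniteDimensional K X] (T : Module.End K X)
    (hT : ∀ v, T v = 0 → v = 0) {μ0 : K} {w0 : X} (hw0 : w0 ≠ 0) (hTw : T w0 = μ0 • w0)
    (hinf : ∀ N : ℕ, 0 < N → μ0 ^ N ≠ 1) :
    ∃ x : Module.End K X, x w0 ≠ 0 ∧ ∀ (κ : Type) [Fintype κ] [DecidableEq κ],
      (∀ φ : MultilinearMap K (fun _ : κ => X) K, TT T φ = φ → dF x φ = 0) ∧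
      dF (κ := κ) x ∈ Algebra.adjoin K {TT (κ := κ) T} := by
  classical
  obtain ⟨m, b, μ, s, n, n0, d, hb, hμ0, hTs, hc, hnd, hd, hs, hn0, hn0d, hTn, hsn⟩ := jordan T hT
  have h0 : μ0 ≠ 0 := by
    rintro rfl
    rw [zero_smul] at hTw
    exact hw0 (hT _ hTw)
  obtain ⟨lam, hl1, hl2, hl3⟩ := exists_hom μ0 h0 hinf
  -- `w0` is an eigenvector of `s`
  have hn00 : n0 w0 = 0 := by
    have h1 : ∀ A ∈ Algebra.adjoin K {T}, ∃ c : K, A w0 = c • w0 := by
      intro A hA
      have h2 := mem_of_adjoin hA (W := Submodule.span K {w0}) (fun w hw => by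
        obtain ⟨c, rfl⟩ := Submodule.mem_span_singleton.1 hw
        rw [map_smul, hTw]
        exact Submodule.smul_mem _ _ (Submodule.smul_mem _ _ (Submodule.mem_span_singleton_self _)))
        w0 (Submodule.mem_span_singleton_self _)
      obtain ⟨c, hc⟩ := Submodule.mem_span_singleton.1 h2
      exact ⟨c, hc.symm⟩
    obtain ⟨c, hc⟩ := h1 n0 hn0
    have h2 : ∀ k : ℕ, (n0 ^ k) w0 = c ^ k • w0 := by
      intro k
      induction k with
      | zero => rw [pow_zero, pow_zero, one_smul]; rfl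
      | succ k ih => rw [pow_succ', Module.End.mul_apply, ih, map_smul, hc, smul_smul, pow_succ]
    have h3 := h2 d
    rw [hn0d, LinearMap.zero_apply] at h3
    have h4 : c = 0 := by
      rcases smul_eq_zero.1 h3.symm with h | h
      · exact pow_eq_zero_iff (by omega) |>.1 h
      · exact absurd h hw0
    rw [hc, h4, zero_smul]
  have hsw : s w0 = μ0 • w0 := by
    have h1 := hTn w0
    rw [hn00, zero_add, hTw] at h1
    exact h1.symm
  refine ⟨fn b μ lam, ?_, ?_⟩
  · rw [fn_eig hb lam hsw]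
    exact smul_ne_zero hl3 hw0
  · intro κ _ _
    have h3 : ∀ (φ : MultilinearMap K (fun _ : κ => X) K) (I : κ → Fin m),
        dF (fn b μ lam) φ (fun l => b (I l)) = lam (∏ k, μ (I k)) * φ (fun l => b (I l)) := by
      intro φ I
      rw [dF_apply]
      have h1 : ∀ k, φ (Function.update (fun l => b (I l)) k (fn b μ lam (b (I k)))) =
          lam (μ (I k)) * φ (fun l => b (I l)) := by
        intro k
        rw [fn_b, MultilinearMap.map_update_smul, Function.update_eq_self, smul_eq_mul]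
      rw [Finset.sum_congr rfl (fun k _ => h1 k), ← Finset.sum_mul]
      have h2 : ∀ S : Finset κ, ∑ k ∈ S, lam (μ (I k)) = lam (∏ k ∈ S, μ (I k)) := by
        intro S
        induction S using Finset.induction_on with
        | empty => rw [Finset.sum_empty, Finset.prod_empty, hl2]
        | insert a S ha ih =>
          rw [Finset.sum_insert ha, Finset.prod_insert ha, hl1 _ _ (hμ0 _)
            (Finset.prod_ne_zero_iff.2 fun k _ => hμ0 _), ih]
      rw [h2]
    constructor
    · intro φ hφ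
      refine Basis.ext_multilinear (fun _ => b) fun I => ?_
      rw [zero_apply, h3]
      by_cases hp : ∏ l, μ (I l) = 1
      · rw [hp, hl2, zero_mul]
      · have h2 := fix_weight hTs hc φ hφ (∑ _l : κ, d) (fun l => μ (I l)) (fun _ => d)
          (fun l => b (I l)) (fun l => hb _) (fun l => by rw [hnd]; rfl) le_rfl hp
        rw [h2, mul_zero]
    · obtain ⟨P, hP⟩ := diag_poly (κ := κ) hb lam
      have h4 : dF (κ := κ) (fn b μ lam) = aeval (TT (κ := κ) s) P := by
        refine LinearMap.ext fun φ => Basis.ext_multilinear (fun _ => b) fun I => ?_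
        rw [h3, hP]
      have h5 : TT (κ := κ) s ∈ Algebra.adjoin K {TT (κ := κ) T} := TT_s_mem hb hTs hc hnd
      have h6 : aeval (TT (κ := κ) s) P ∈ Algebra.adjoin K {TT (κ := κ) s} :=
        aeval_mem_adjoin (A := Module.End K (MultilinearMap K (fun _ : κ => X) K)) _ P
      rw [h4]
      exact mem_adjoin_of_mem (A := Module.End K (MultilinearMap K (fun _ : κ => X) K)) h5 h6

/-- **The case of a unipotent restriction.** -/
theorem inf_two [IsAlgClosed K] [FiniteDimensional K X] (T : Module.End K X)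
    (hT : ∀ v, T v = 0 → v = 0) (W : Submodule K X) (hW : ∀ w ∈ W, T w ∈ W) {w0 : X}
    (hw0 : w0 ∈ W) (hTw : T w0 ≠ w0) (M : ℕ) (hM : ∀ w ∈ W, ((T - 1) ^ M) w = 0) :
    ∃ x : Module.End K X, (∃ w ∈ W, x w ≠ 0) ∧ ∀ (κ : Type) [Fintype κ] [DecidableEq κ],
      (∀ φ : MultilinearMap K (fun _ : κ => X) K, TT T φ = φ → dF x φ = 0) ∧
      dF (κ := κ) x ∈ Algebra.adjoin K {TT (κ := κ) T} := by
  classical
  obtain ⟨m, b, μ, s, n, n0, d, hb, hμ0, hTs, hc, hnd, hd, hs, hn0, hn0d, hTn, hsn⟩ := jordan T hT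
  -- `s` is the identity on `W`
  have hs1 : ∀ w ∈ W, s w = w := by
    intro w hw
    have hcom : Commute (T - 1) n0 :=
      (Algebra.commute_of_mem_adjoin_self hn0).sub_left (Commute.one_left _)
    have hsT : s - 1 = (T - 1) - n0 := by
      have h1 : T = n0 + s := LinearMap.ext hTn
      rw [h1]
      abel
    have h1 : ((s - 1) ^ (M + d)) w = 0 := by
      rw [hsT, sub_eq_add_neg, (hcom.neg_right).add_pow, LinearMap.sum_apply]
      refine Finset.sum_eq_zero fun j _ => ?_
      have h2 : ((T - 1) ^ j * (-n0) ^ (M + d - j) * ((M + d).choose j : Module.End K X)) w =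
          ((M + d).choose j : K) • ((T - 1) ^ j * (-n0) ^ (M + d - j)) w := by
        rw [← nsmul_eq_mul', LinearMap.smul_apply, Nat.cast_smul_eq_nsmul]
      rw [h2]
      by_cases hj : d ≤ M + d - j
      · rw [neg_pow n0, pow_eq_zero_of_le hj hn0d, mul_zero, mul_zero, LinearMap.zero_apply,
          smul_zero]
      · have h3 : M ≤ j := by omega
        obtain ⟨a, rfl⟩ := Nat.exists_eq_add_of_le h3
        rw [Module.End.mul_apply, add_comm M a, pow_add, Module.End.mul_apply, hM, map_zero,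
          smul_zero]
        refine mem_of_adjoin (T := T) ?_ hW w hw
        exact Subalgebra.pow_mem _ (Subalgebra.neg_mem _ hn0) _
    have h2 : ∀ k : ℕ, ∀ i, b.repr (((s - 1) ^ k) w) i = (μ i - 1) ^ k * b.repr w i := by
      intro k
      induction k with
      | zero => intro i; rw [pow_zero, pow_zero, one_mul]; rfl
      | succ k ih =>
        intro i
        rw [pow_succ', Module.End.mul_apply, LinearMap.sub_apply, Module.End.one_apply, map_sub,
          Finsupp.sub_apply, eq_fn hb, fn_repr, ← eq_fn hb, ih, pow_succ, id]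
        ring
    apply b.repr.injective
    ext i
    rw [eq_fn hb, fn_repr, id]
    have h3 := h2 (M + d) i
    rw [h1, map_zero, Finsupp.zero_apply] at h3
    rcases mul_eq_zero.1 h3.symm with h4 | h4
    · have h5 : μ i - 1 = 0 := pow_eq_zero_iff (by omega) |>.1 h4
      rw [sub_eq_zero.1 h5, one_mul]
    · rw [h4, mul_zero]
  have hsinj : ∀ v, s v = 0 → v = 0 := by
    intro v hv
    apply b.repr.injective
    ext i
    have h1 : b.repr (s v) i = 0 := by rw [hv, map_zero, Finsupp.zero_apply]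
    rw [eq_fn hb, fn_repr, id] at h1
    rw [map_zero, Finsupp.zero_apply]
    exact (mul_eq_zero.1 h1).resolve_left (hμ0 i)
  have hnW : ∀ w ∈ W, n w = T w - w := by
    intro w hw
    have h1 : s (n w - (T w - w)) = 0 := by
      rw [map_sub, hsn, hs1 (T w - w) (W.sub_mem (hW w hw) hw), hTn, hs1 w hw]
      abel
    exact sub_eq_zero.1 (hsinj _ h1)
  have hnWm : ∀ w ∈ W, n w ∈ W := by
    intro w hw
    rw [hnW w hw]
    exact W.sub_mem (hW w hw) hw
  -- the last nonzero power
  have hlast : ∃ w ∈ W, n w ≠ 0 ∧ n (n w) = 0 := by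
    by_contra hcon
    push Not at hcon
    have h1 : ∀ k : ℕ, (n ^ k) w0 ∈ W ∧ n ((n ^ k) w0) ≠ 0 := by
      intro k
      induction k with
      | zero =>
        refine ⟨hw0, ?_⟩
        rw [pow_zero, Module.End.one_apply, hnW w0 hw0]
        exact sub_ne_zero.2 hTw
      | succ k ih =>
        have h2 : (n ^ (k + 1)) w0 = n ((n ^ k) w0) := by rw [pow_succ', Module.End.mul_apply]
        rw [h2]
        exact ⟨hnWm _ ih.1, hcon _ ih.1 ih.2⟩
    exact (h1 d).2 (by rw [hnd, LinearMap.zero_apply, map_zero])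
  obtain ⟨w, hw, hnw, hnnw⟩ := hlast
  refine ⟨lg d n, ⟨w, hw, by rw [lg_last hd n hnnw]; exact hnw⟩, ?_⟩
  intro κ _ _
  constructor
  · intro φ hφ
    refine lg_kill hnd φ ?_
    refine Basis.ext_multilinear (fun _ => b) fun I => ?_
    rw [TT_apply]
    have h1 : φ (fun l => b (I l)) = (∏ l, μ (I l)) * φ (fun l => (1 + n) (b (I l))) := by
      have h2 : φ (fun l => b (I l)) = φ (fun l => T (b (I l))) := by
        conv_lhs => rw [← hφ]
        rfl
      have h3 : (fun l => T (b (I l))) = fun l => μ (I l) • ((1 + n) (b (I l))) := by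
        funext l
        rw [hTs, map_add, hc, hb, map_smul, LinearMap.add_apply, Module.End.one_apply, smul_add]
      rw [h2, h3, MultilinearMap.map_smul_univ, smul_eq_mul]
    by_cases hp : ∏ l, μ (I l) = 1
    · rw [hp, one_mul] at h1
      exact h1.symm
    · have h2 := fix_weight hTs hc φ hφ (∑ _l : κ, d) (fun l => μ (I l)) (fun _ => d)
        (fun l => b (I l)) (fun l => hb _) (fun l => by rw [hnd]; rfl) le_rfl hp
      rw [h2] at h1
      rw [h2]
      exact (mul_eq_zero.1 h1.symm).resolve_left (Finset.prod_ne_zero_iff.2 fun k _ => hμ0 _)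
  · obtain ⟨D, hD⟩ := TT_unip (κ := κ) hnd
    have h1 : TT (κ := κ) (1 + n) ∈ Algebra.adjoin K {TT (κ := κ) T} :=
      TT_u_mem hb hμ0 hTs hc hnd
    have h2 := sub_one_mem' (A := Module.End K (MultilinearMap K (fun _ : κ => X) K)) h1
    rw [dF_lg hnd hD]
    exact sum_pow_mem (A := Module.End K (MultilinearMap K (fun _ : κ => X) K)) h2 D _

/-- **An operator of infinite order on a subspace.** -/
theorem exists_lie [IsAlgClosed K] [FiniteDimensional K X] (T : Module.End K X)
    (hT : ∀ v, T v = 0 → v = 0) (W : Submodule K X) (hW : ∀ w ∈ W, T w ∈ W)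
    (hinf : ∀ N : ℕ, 0 < N → ∃ w ∈ W, (T ^ N) w ≠ w) :
    ∃ x : Module.End K X, (∃ w ∈ W, x w ≠ 0) ∧ ∀ (κ : Type) [Fintype κ] [DecidableEq κ],
      (∀ φ : MultilinearMap K (fun _ : κ => X) K, TT T φ = φ → dF x φ = 0) ∧
      dF (κ := κ) x ∈ Algebra.adjoin K {TT (κ := κ) T} := by
  classical
  by_cases hev : ∃ (μ0 : K) (w0 : X), w0 ∈ W ∧ w0 ≠ 0 ∧ T w0 = μ0 • w0 ∧
      ∀ N : ℕ, 0 < N → μ0 ^ N ≠ 1
  · obtain ⟨μ0, w0, hw0, hw00, hTw, hμ⟩ := hev
    obtain ⟨x, hx, hx'⟩ := inf_one T hT hw00 hTw hμ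
    exact ⟨x, ⟨w0, hw0, hx⟩, hx'⟩
  push Not at hev
  -- all eigenvalues on `W` are roots of unity
  let T' : Module.End K W := T.restrict hW
  have hroot : ∀ β ∈ (minpoly K T').roots, ∃ N : ℕ, 0 < N ∧ β ^ N = 1 := by
    intro β hβ
    have h1 : Module.End.HasEigenvalue T' β := by
      rw [Module.End.hasEigenvalue_iff_isRoot]
      exact (Polynomial.mem_roots'.1 hβ).2
    obtain ⟨v, hv⟩ := h1.exists_hasEigenvector
    have h2 : T (v : X) = β • (v : X) := congrArg Subtype.val hv.apply_eq_smul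
    exact hev β v v.2 (fun h => hv.2 (Subtype.ext h)) h2
  have hroot' : ∃ o : K → ℕ, ∀ β ∈ (minpoly K T').roots, 0 < o β ∧ β ^ (o β) = 1 := by
    refine ⟨fun β => if h : β ∈ (minpoly K T').roots then (hroot β h).choose else 1, ?_⟩
    intro β hβ
    simp only [dif_pos hβ]
    exact (hroot β hβ).choose_spec
  obtain ⟨o, ho⟩ := hroot'
  let N : ℕ := ∏ β ∈ (minpoly K T').roots.toFinset, o β
  have hN0 : 0 < N := Finset.prod_pos fun β hβ => (ho β (Multiset.mem_toFinset.1 hβ)).1
  have hN : ∀ β ∈ (minpoly K T').roots, β ^ N = 1 := by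
    intro β hβ
    obtain ⟨c, hc⟩ := Finset.dvd_prod_of_mem o (Multiset.mem_toFinset.2 hβ)
    have h1 : N = o β * c := hc
    rw [h1, pow_mul, (ho β hβ).2, one_pow]
  obtain ⟨w0, hw0, hTw⟩ := hinf N hN0
  have hTi : IsIntegral K T' := Algebra.IsIntegral.isIntegral _
  have h1 : aeval (T' ^ N) ((minpoly K T').roots.map fun β => (Polynomial.X - C (β ^ N) : K[X])).prod
      = 0 := by
    refine LinearMap.ext fun w => ?_
    refine pow_kill T' _ N w ?_
    have h2 : ((minpoly K T').roots.map fun β => (Polynomial.X - C β : K[X])).prod = minpoly K T' :=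
      ((IsAlgClosed.splits (minpoly K T')).eq_prod_roots_of_monic (minpoly.monic hTi)).symm
    rw [h2, minpoly.aeval, LinearMap.zero_apply]
  have h2 : ((minpoly K T').roots.map fun β => (Polynomial.X - C (β ^ N) : K[X])).prod =
      (Polynomial.X - C 1) ^ (Multiset.card (minpoly K T').roots) := by
    rw [Multiset.map_congr rfl (fun β hβ => by rw [hN β hβ]), Multiset.map_const',
      Multiset.prod_replicate]
  rw [h2, map_pow, map_sub, aeval_X, aeval_C, map_one] at h1
  have h3 : ∀ (k : ℕ) (w : W), (((T' ^ N - 1) ^ k) w : X) = ((T ^ N - 1) ^ k) (w : X) := by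
    have h4 : ∀ (j : ℕ) (w : W), (((T' ^ j) w : W) : X) = (T ^ j) (w : X) := by
      intro j
      induction j with
      | zero => intro w; rfl
      | succ j ih => intro w; rw [pow_succ, pow_succ, Module.End.mul_apply, ih]; rfl
    intro k
    induction k with
    | zero => intro w; rfl
    | succ k ih =>
      intro w
      rw [pow_succ, pow_succ, Module.End.mul_apply, Module.End.mul_apply, ih]
      congr 1
      rw [LinearMap.sub_apply, LinearMap.sub_apply, Submodule.coe_sub, h4]
      rfl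
  have hTN : ∀ v, (T ^ N) v = 0 → v = 0 := by
    have h4 : ∀ k : ℕ, ∀ v, (T ^ k) v = 0 → v = 0 := by
      intro k
      induction k with
      | zero => intro v hv; exact hv
      | succ k ih =>
        intro v hv
        rw [pow_succ, Module.End.mul_apply] at hv
        exact hT _ (ih _ hv)
    exact h4 N
  have hWN : ∀ w ∈ W, (T ^ N) w ∈ W :=
    mem_of_adjoin (T := T) (Subalgebra.pow_mem _ (Algebra.self_mem_adjoin_singleton K T) N) hW
  obtain ⟨x, hx, hx'⟩ := inf_two (T ^ N) hTN W hWN hw0 hTw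
    (Multiset.card (minpoly K T').roots) (fun w hw => by
      rw [← h3 _ ⟨w, hw⟩, h1]
      rfl)
  refine ⟨x, hx, fun κ _ _ => ⟨fun φ hφ => (hx' κ).1 φ (TT_fix_pow hφ N), ?_⟩⟩
  have h4 : TT (κ := κ) (T ^ N) ∈ Algebra.adjoin K {TT (κ := κ) T} := by
    rw [TT_pow]
    exact (Algebra.adjoin K {TT (κ := κ) T}).pow_mem (Algebra.subset_adjoin (Set.mem_singleton _)) N
  exact mem_adjoin_of_mem (A := Module.End K (MultilinearMap K (fun _ : κ => X) K)) h4 (hx' κ).2

end

end Pool.Agent.Y128.RT
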