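import Pool.Agent.Y128.RT.Fft
import Pool.Agent.Y128.RT.Inf

/-!
# The theorem for frames
-/

set_option linter.unusedSectionVars false

namespace Pool.Agent.Y128.RT

open Module Equiv Pool.Agent.H204R3.SP Pool.Agent.H204R3.GP Pool.Agent.W529.Ta
  Pool.Agent.TH131.GHC Pool.Agent.Y128.GT

noncomputable section

variable {K : Type} [Field K] [CharZero K] {X : Type} [AddCommGroup X] [Module K X]
  {Γ : Type} [Group Γ] {R : Representation K Γ X} {χ : Γ →* K}
  {ι Q : Type} [Fintype ι] [DecidableEq ι] [Fintype Q] [DecidableEq Q] (Fr : Frame R χ ι Q)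

theorem dF_sub {κ : Type} [Fintype κ] [DecidableEq κ] (x y : Module.End K X)
    (φ : MultilinearMap K (fun _ : κ => X) K) : dF (x - y) φ = dF x φ - dF y φ := by
  ext v
  rw [sub_apply, dF_apply, dF_apply, dF_apply, ← Finset.sum_sub_distrib]
  refine Finset.sum_congr rfl fun k _ => ?_
  rw [LinearMap.sub_apply, MultilinearMap.map_update_sub]

/-- The elements of the Lie algebra which kill a space of forms. -/
def LU {κ : Type} [Fintype κ] [DecidableEq κ]
    (U : Submodule K (MultilinearMap K (fun _ : κ => X) K)) (R : Representation K Γ X)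
    (χ : Γ →* K) : Submodule K (Module.End K X) where
  carrier := {x | x ∈ gg R χ ∧ ∀ φ ∈ U, dF x φ = 0}
  zero_mem' := ⟨Submodule.zero_mem _, fun φ _ => dF_zero φ⟩
  add_mem' := by
    rintro x y ⟨hx, hx'⟩ ⟨hy, hy'⟩
    refine ⟨Submodule.add_mem _ hx hy, fun φ hφ => ?_⟩
    rw [dF_add, hx' φ hφ, hy' φ hφ, add_zero]
  smul_mem' := by
    rintro c x ⟨hx, hx'⟩
    refine ⟨Submodule.smul_mem _ c hx, fun φ hφ => ?_⟩
    rw [dF_smul, hx' φ hφ, smul_zero]

/-- **The theorem for frames.** -/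
theorem level_zero [IsAlgClosed K] (hss : HasProj R)
    (hPT : ∀ (m : ℕ) (φ : MultilinearMap K (fun _ : Fin m × Fin 2 => X) K),
      IsTate R χ m φ → φ ∈ Submodule.span K (PT R χ m)) {κ : Type} [Fintype κ] [DecidableEq κ]
    (U : Submodule K (MultilinearMap K (fun _ : κ => X) K))
    (hU : ∀ s, ∀ φ ∈ U, TT (R s) φ ∈ U)
    (hN : ∀ q : Q, ∃ (g : Γ) (Δ : Subgroup Γ), Δ.FiniteIndex ∧
      (∀ s ∈ Δ, ∀ φ ∈ U, TT (R g) (TT (R s) φ) = TT (R s) (TT (R g) φ)) ∧
      ∀ N : ℕ, 0 < N → ∃ u, Fr.pr q u = u ∧ ((R g) ^ (2 * N)) u ≠ (χ g) ^ N • u)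
    (φ : MultilinearMap K (fun _ : κ => X) K) (hφ : φ ∈ U) (a b : ι) (hab : Fr.cls a = Fr.cls b) :
    dF (SS Fr.ω (Fr.e a) (Fr.e b)) φ = 0 := by
  classical
  have hfd : FiniteDimensional K X := Module.Finite.of_basis Fr.e
  have hgg : LU U R χ ≤ gg R χ := fun x hx => hx.1
  have hRi : ∀ (s : Γ) (v : X), R s (R s⁻¹ v) = v := fun s v => by
    rw [← Module.End.mul_apply, ← map_mul, mul_inv_cancel, map_one]; rfl
  have hRi' : ∀ (s : Γ) (v : X), R s⁻¹ (R s v) = v := fun s v => by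
    rw [← Module.End.mul_apply, ← map_mul, inv_mul_cancel, map_one]; rfl
  have hbr : ∀ x ∈ LU U R χ, ∀ y ∈ LU U R χ, x * y - y * x ∈ LU U R χ := by
    rintro x ⟨hx, hx'⟩ y ⟨hy, hy'⟩
    refine ⟨fun B hB u w => ?_, fun φ hφ => ?_⟩
    · rw [LinearMap.sub_apply, LinearMap.sub_apply, Module.End.mul_apply, Module.End.mul_apply,
        Module.End.mul_apply, Module.End.mul_apply, map_sub, map_sub, LinearMap.sub_apply]
      linear_combination hx B hB (y u) w + hx B hB u (y w) - hy B hB (x u) w - hy B hB u (x w)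
    · rw [dF_bracket, hx' φ hφ, hy' φ hφ, map_zero, map_zero, sub_zero]
  have hc : ∀ (s : Γ), ∀ x ∈ LU U R χ, R s * x * R s⁻¹ ∈ LU U R χ := by
    rintro s x ⟨hx, hx'⟩
    refine ⟨fun B hB u w => ?_, fun φ hφ => ?_⟩
    · have h1 := hx B hB (R s⁻¹ u) (R s⁻¹ w)
      have h2 := Fr.tate2_all hB s (x (R s⁻¹ u)) (R s⁻¹ w)
      have h3 := Fr.tate2_all hB s (R s⁻¹ u) (x (R s⁻¹ w))
      rw [hRi] at h2 h3
      change B (R s (x (R s⁻¹ u))) w + B u (R s (x (R s⁻¹ w))) = 0
      rw [h2, h3]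
      linear_combination χ s * h1
    · rw [dF_conj, hx' _ (hU s φ hφ), map_zero]
  -- the ideal
  have hid : ∀ x ∈ LU U R χ, ∀ z ∈ gg R χ, x * z - z * x ∈ LU U R χ :=
    fun x hx z hz => bracket_gg' Fr hss hPT hgg hbr hc hx hz
  obtain ⟨g, Δ, hΔ, hg, hgN⟩ := hN (Fr.cls a)
  have hχ0 : χ g ≠ 0 := by
    intro h0
    have h1 : χ g * χ g⁻¹ = 1 := by rw [← map_mul, mul_inv_cancel, map_one]
    rw [h0, zero_mul] at h1
    exact zero_ne_one h1
  let W : Submodule K X := LinearMap.range (Fr.pr (Fr.cls a))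
  have hWm : ∀ u, u ∈ W ↔ Fr.pr (Fr.cls a) u = u := by
    intro u
    constructor
    · rintro ⟨v, rfl⟩
      exact Fr.pr_pr _ _
    · intro h
      exact ⟨u, h⟩
  let T1 : Module.End K X := (χ g)⁻¹ • (R g * R g)
  have hT1 : ∀ v, T1 v = (χ g)⁻¹ • R g (R g v) := fun _ => rfl
  have hT1N : ∀ (N : ℕ) (v : X), (T1 ^ N) v = ((χ g)⁻¹) ^ N • ((R g) ^ (2 * N)) v := by
    intro N v
    have h1 : T1 ^ N = ((χ g)⁻¹) ^ N • ((R g) ^ (2 * N)) := by
      simp only [T1]
      rw [smul_pow, ← pow_two, ← pow_mul]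
    rw [h1, LinearMap.smul_apply]
  obtain ⟨x, ⟨w, hw, hxw⟩, hx⟩ := exists_lie T1 (fun v hv => by
      rw [hT1] at hv
      have h1 := (smul_eq_zero.1 hv).resolve_left (inv_ne_zero hχ0)
      rw [← hRi' g v, ← hRi' g (R g v), h1, map_zero, map_zero]) W (fun w hw => by
      rw [hWm] at hw ⊢
      rw [hT1, map_smul, Fr.pr_comm, Fr.pr_comm, hw]) (fun N hN0 => by
      obtain ⟨u, hu, hu'⟩ := hgN N hN0
      refine ⟨u, (hWm u).2 hu, ?_⟩
      rw [hT1N]
      intro h1
      apply hu'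
      have h2 := congrArg (fun v => (χ g) ^ N • v) h1
      simp only [smul_smul] at h2
      rwa [← mul_pow, mul_inv_cancel₀ hχ0, one_pow, one_smul] at h2)
  have hxg : x ∈ gg R χ := by
    intro B hB u w
    have h1 := (hx (Fin 2)).1 (bil2 B) (by
      ext v
      rw [TT_apply, bil2_apply, bil2_apply, hT1, hT1, map_smul, map_smul, LinearMap.smul_apply,
        smul_eq_mul, smul_eq_mul, Fr.tate2_all hB g, Fr.tate2_all hB g]
      field_simp)
    have h2 : dF x (bil2 B) ![u, w] = (0 : MultilinearMap K (fun _ : Fin 2 => X) K) ![u, w] := by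
      rw [h1]
    rw [zero_apply, dF_apply, Fin.sum_univ_two, bil2_apply, bil2_apply, Function.update_self,
      Function.update_self, Function.update_of_ne (by decide),
      Function.update_of_ne (by decide)] at h2
    exact h2
  -- on `U` the derivation commutes with `Δ`
  have hTT1 : ∀ φ : MultilinearMap K (fun _ : κ => X) K, TT T1 φ =
      ((χ g)⁻¹) ^ Fintype.card κ • TT (R g) (TT (R g) φ) := by
    intro φ
    ext v
    rw [TT_apply, smul_apply, TT_apply, TT_apply]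
    simp only [hT1]
    rw [MultilinearMap.map_smul_univ, Finset.prod_const, Finset.card_univ]
  have hcomU : ∀ φ ∈ U, dF x φ ∈ U ∧ ∀ s ∈ Δ, dF x (TT (R s) φ) = TT (R s) (dF x φ) := by
    have h1 := (hx κ).2
    generalize dF (κ := κ) x = A at h1
    induction h1 using Algebra.adjoin_induction with
    | mem A hA =>
      rw [Set.mem_singleton_iff] at hA
      subst hA
      intro φ hφ
      refine ⟨?_, fun s hs => ?_⟩
      · rw [hTT1]
        exact U.smul_mem _ (hU g _ (hU g _ hφ))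
      · rw [hTT1, hTT1, hg s hs φ hφ, hg s hs _ (hU g φ hφ), map_smul]
    | algebraMap r =>
      intro φ hφ
      refine ⟨?_, fun s hs => ?_⟩
      · rw [Module.algebraMap_end_apply]
        exact U.smul_mem r hφ
      · rw [Module.algebraMap_end_apply, Module.algebraMap_end_apply, map_smul]
    | add A B _ _ hA hB =>
      intro φ hφ
      refine ⟨?_, fun s hs => ?_⟩
      · rw [LinearMap.add_apply]
        exact U.add_mem (hA φ hφ).1 (hB φ hφ).1
      · rw [LinearMap.add_apply, LinearMap.add_apply, map_add, (hA φ hφ).2 s hs,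
          (hB φ hφ).2 s hs]
    | mul A B _ _ hA hB =>
      intro φ hφ
      refine ⟨?_, fun s hs => ?_⟩
      · rw [Module.End.mul_apply]
        exact (hA _ (hB φ hφ).1).1
      · rw [Module.End.mul_apply, Module.End.mul_apply, (hB φ hφ).2 s hs,
          (hA _ (hB φ hφ).1).2 s hs]
  have hconj : ∀ s, ∀ y ∈ gg R χ, R s * y * R s⁻¹ ∈ gg R χ := by
    intro s y hy B hB u w
    have h1 := hy B hB (R s⁻¹ u) (R s⁻¹ w)
    have h2 := Fr.tate2_all hB s (y (R s⁻¹ u)) (R s⁻¹ w)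
    have h3 := Fr.tate2_all hB s (R s⁻¹ u) (y (R s⁻¹ w))
    rw [hRi] at h2 h3
    change B (R s (y (R s⁻¹ u))) w + B u (R s (y (R s⁻¹ w))) = 0
    rw [h2, h3]
    linear_combination χ s * h1
  have hyL : ∀ s ∈ Δ, R s * x * R s⁻¹ - x ∈ LU U R χ := by
    intro s hs
    refine ⟨(gg R χ).sub_mem (hconj s x hxg) hxg, fun φ hφ => ?_⟩
    rw [dF_sub, dF_conj, (hcomU φ hφ).2 s hs, sub_eq_zero]
    ext v
    rw [TT_apply, TT_apply]
    simp only [hRi]
  -- some difference is not zero on the class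
  obtain ⟨s, hs, v, hv, hyv⟩ : ∃ s ∈ Δ, ∃ v, Fr.pr (Fr.cls a) v = v ∧
      (R s * x * R s⁻¹ - x) v ≠ 0 := by
    by_contra hcon
    push Not at hcon
    have h1 : ∀ s ∈ Δ, ∀ v, (x * Fr.pr (Fr.cls a)) (R s v) = R s ((x * Fr.pr (Fr.cls a)) v) := by
      intro s hs v
      rw [Module.End.mul_apply, Module.End.mul_apply, Fr.pr_comm]
      have h2 := hcon s hs (R s (Fr.pr (Fr.cls a) v)) (by rw [Fr.pr_comm, Fr.pr_pr])
      rw [LinearMap.sub_apply, Module.End.mul_apply, Module.End.mul_apply, hRi', sub_eq_zero] at h2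
      exact h2.symm
    obtain ⟨c, hc'⟩ := Fr.schur Δ hΔ _ h1
    have h2 : ∀ v, Fr.pr (Fr.cls a) v = v → x v = c (Fr.cls a) • v := by
      intro v hv
      have h3 : x * Fr.pr (Fr.cls a) = c (Fr.cls a) • Fr.pr (Fr.cls a) := by
        refine Fr.e.ext fun y => ?_
        rw [LinearMap.smul_apply]
        by_cases hy : Fr.cls y = Fr.cls a
        · rw [hc', Fr.pr_e, if_pos hy, hy]
        · rw [Module.End.mul_apply, Fr.pr_e, if_neg hy, map_zero, smul_zero]
      have h4 := congrArg (fun A : Module.End K X => A v) h3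
      simp only [Module.End.mul_apply, LinearMap.smul_apply, hv] at h4
      exact h4
    have hw' := (hWm w).1 hw
    have hw0 : w ≠ 0 := by
      rintro rfl
      exact hxw (map_zero _)
    obtain ⟨t, ht, hwt⟩ := exists_partner Fr hw' hw0
    have h3 := hxg _ Fr.omega_tate w t
    rw [h2 w hw', h2 t ht, map_smul, map_smul, LinearMap.smul_apply, hwt, smul_eq_mul,
      mul_one, ← two_mul] at h3
    have h4 : c (Fr.cls a) = 0 := (mul_eq_zero.1 h3).resolve_left two_ne_zero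
    apply hxw
    rw [h2 w hw', h4, zero_smul]
  have h1 := full_of_ideal Fr hgg hid (hyL s hs) hv hyv (Fr.e a) (Fr.e b)
    (by rw [Fr.pr_e, if_pos rfl]) (by rw [Fr.pr_e, if_pos hab.symm])
  exact h1.2 φ hφ

end

end Pool.Agent.Y128.RT
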