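import Pool.Agent.Y128.RT.Frm
import Pool.Agent.Y128.RT.Lvl

/-!
# The theorem over an algebraically closed field
-/

set_option linter.unusedSectionVars false

namespace Pool.Agent.Y128.RT

open Module Pool.Agent.H204R3.CM Pool.Agent.H204R3.SP Pool.Agent.H204R3.GP
  Pool.Agent.W529.Ta Pool.Agent.W522.U Pool.Agent.Y128.GT

noncomputable section

section prod

variable {K : Type} [Field K] {X : Type} [AddCommGroup X] [Module K X]
  {Γ : Type} [Group Γ] (R : Representation K Γ X) (χ : Γ →* K)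

/-- A product of bilinear Tate forms is in the power of the ideal. -/
theorem prod_IJ (m : ℕ) : ∀ (κ : Type) [Fintype κ] [DecidableEq κ] (e : Fin m × Fin 2 ≃ κ)
    (B : Fin m → X →ₗ[K] X →ₗ[K] K) (_ : ∀ l, IsTate2 R χ (B l))
    (φ : MultilinearMap K (fun _ : κ => X) K)
    (_ : ∀ v, φ v = ∏ l, B l (v (e (l, 0))) (v (e (l, 1)))), φ ∈ IJ R χ m κ := by
  classical
  induction m with
  | zero =>
    intro κ _ _ e B hB φ hφ
    exact Submodule.mem_top
  | succ m ih =>
    intro κ _ _ e B hB φ hφ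
    have hab : e (0, 0) ≠ e (0, 1) := by
      intro h
      have h1 := e.injective h
      simp at h1
    let f : Fin m × Fin 2 → {l : κ // l ≠ e (0, 0) ∧ l ≠ e (0, 1)} := fun x =>
      ⟨e (x.1.succ, x.2), by
        constructor
        · intro h
          have h1 := congrArg Prod.fst (e.injective h)
          exact Fin.succ_ne_zero _ h1
        · intro h
          have h1 := congrArg Prod.fst (e.injective h)
          exact Fin.succ_ne_zero _ h1⟩
    have hf : Function.Bijective f := by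
      constructor
      · rintro ⟨a, b⟩ ⟨a', b'⟩ h
        have h1 := e.injective (congrArg Subtype.val h)
        have h2 : a = a' := Fin.succ_injective _ (congrArg Prod.fst h1)
        have h3 : b = b' := congrArg Prod.snd h1
        rw [h2, h3]
      · rintro ⟨l, hl1, hl2⟩
        obtain ⟨⟨a, b⟩, rfl⟩ := e.surjective l
        have ha : a ≠ 0 := by
          rintro rfl
          fin_cases b
          · exact hl1 rfl
          · exact hl2 rfl
        obtain ⟨a', rfl⟩ := Fin.exists_succ_eq.2 ha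
        exact ⟨(a', b), rfl⟩
    let e' := Equiv.ofBijective f hf
    let c : MultilinearMap K (fun _ : {l : κ // l ≠ e (0, 0) ∧ l ≠ e (0, 1)} => X) K :=
      (prodMap (fun l : Fin m => bil2 (B l.succ))).domDomCongr e'
    have h1 : φ = mulB hab (B 0) c := by
      ext v
      rw [hφ, mulB_apply, Fin.prod_univ_succ]
      rfl
    rw [h1]
    exact mulB_mem R χ hab (hB 0) (ih _ e' _ (fun l => hB l.succ) c fun v => rfl)

/-- Transport along a bijection of the variables. -/
theorem dF_domDomCongr {κ κ' : Type} [Fintype κ] [DecidableEq κ] [Fintype κ'] [DecidableEq κ']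
    (f : κ ≃ κ') (x : Module.End K X) (φ : MultilinearMap K (fun _ : κ => X) K) :
    dF x (φ.domDomCongr f) = (dF x φ).domDomCongr f := by
  ext v
  rw [dF_apply, MultilinearMap.domDomCongr_apply, dF_apply, ← Equiv.sum_comp f]
  refine Finset.sum_congr rfl fun k _ => ?_
  rw [MultilinearMap.domDomCongr_apply]
  congr 1
  funext l
  by_cases h : l = k
  · subst h
    rw [Function.update_self, Function.update_self]
  · rw [Function.update_of_ne h, Function.update_of_ne (fun h' => h (f.injective h'))]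

end prod

variable {K : Type} [Field K] [CharZero K] {V : Type} [AddCommGroup V] [Module K V]
  {Γ : Type} [Group Γ] {R : Representation K Γ V} {χ : Γ →* K} {s : ℕ}

/-- Forms on a frame which are killed by the Lie algebras of the classes. -/
theorem fft_IJ {X : Type} [AddCommGroup X] [Module K X] {Γ : Type} [Group Γ]
    {R : Representation K Γ X} {χ : Γ →* K} {ι Q : Type} [Fintype ι] [DecidableEq ι]
    [Fintype Q] [DecidableEq Q] (Fr : Frame R χ ι Q) {κ : Type} [Fintype κ] [DecidableEq κ]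
    {m : ℕ} (hκ : Fintype.card κ = 2 * m) (φ : MultilinearMap K (fun _ : κ => X) K)
    (hφ : ∀ a b, Fr.cls a = Fr.cls b → dF (SS Fr.ω (Fr.e a) (Fr.e b)) φ = 0) :
    φ ∈ IJ R χ m κ := by
  classical
  obtain ⟨f⟩ : Nonempty (κ ≃ Fin m × Fin 2) := by
    rw [← Fintype.card_eq, hκ, Fintype.card_prod, Fintype.card_fin, Fintype.card_fin, mul_comm]
  have h1 := fft_mem Fr (φ.domDomCongr f) (fun a b hab => by
    rw [dF_domDomCongr, hφ a b hab]
    rfl)
  let L : MultilinearMap K (fun _ : Fin m × Fin 2 => X) K →ₗ[K]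
      MultilinearMap K (fun _ : κ => X) K :=
    { toFun := fun ψ => ψ.domDomCongr f.symm
      map_add' := fun _ _ => rfl
      map_smul' := fun _ _ => rfl }
  have h2 : φ = L (φ.domDomCongr f) := by
    ext v
    change φ v = φ (fun i => v (f.symm (f i)))
    congr 1
    funext i
    rw [Equiv.symm_apply_apply]
  rw [h2]
  have h3 := Submodule.mem_map_of_mem (f := L) h1
  rw [Submodule.map_span] at h3
  refine (Submodule.span_le.2 ?_) h3
  rintro _ ⟨_, ⟨σ, B, hB, rfl⟩, rfl⟩
  exact prod_IJ R χ m κ (σ.trans f.symm) B hB _ fun v => rfl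

/-- **The theorem over an algebraically closed field.** -/
theorem closed_rel [IsAlgClosed K] [FiniteDimensional K V] (hss : HasProj R)
    (hPT : ∀ (m : ℕ) (φ : MultilinearMap K (fun _ : Fin m × Fin 2 => V) K),
      IsTate R χ m φ → φ ∈ Submodule.span K (PT R χ m)) (hS : Sympl R χ)
    (Δ0 : Subgroup Γ) (hΔ0 : Δ0.FiniteIndex) (κ : Type) [Fintype κ] [DecidableEq κ]
    (U : Submodule K (MultilinearMap K (fun _ : κ => V) K))
    (hU : ∀ g ∈ Δ0, ∀ φ ∈ U, TT (R g) φ ∈ U)
    (hN : ∀ W, SI R W → ∃ (g : Γ) (Δ : Subgroup Γ), g ∈ Δ0 ∧ Δ.FiniteIndex ∧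
      (∀ s ∈ Δ, ∀ φ ∈ U, TT (R g) (TT (R s) φ) = TT (R s) (TT (R g) φ)) ∧
      ∀ N : ℕ, 0 < N → ∃ u ∈ W, ((R g) ^ (2 * N)) u ≠ (χ g) ^ N • u) :
    (∀ m : ℕ, Fintype.card κ = 2 * m → U ≤ IJ R χ m κ) ∧ (Odd (Fintype.card κ) → U ≤ ⊥) := by
  classical
  obtain ⟨s, ⟨D0⟩⟩ := exists_Reps hss hS
  obtain ⟨m, s', p', Δ1, hΔ1, hsp, hs', hp'⟩ := D0.decomp hss
  let D : Reps R χ s := D0.shrink (Δ1 ⊓ Δ0) inferInstance
  have hDfi := D.fi
  obtain ⟨n', Fr, hFr⟩ := D.exists_frame'
  have hPTE := fun m φ hφ => D.tate_gen hss m (hPT m) φ hφ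
  have hsE : ∀ (g : D.Δ) (a : Fin m) (u : D.E), s' a (D.rE g u) = R g.1 (s' a u) := by
    intro g a u
    exact hs' ⟨g.1, g.2.1⟩ g.2.2.1 a u
  have hpE : ∀ (g : D.Δ) (a : Fin m) (x : V), p' a (R g.1 x) = D.rE g (p' a x) := by
    intro g a x
    exact hp' ⟨g.1, g.2.1⟩ g.2.2.1 a x
  have hTTs : ∀ (w : κ → Fin m) (g : D.Δ) (φ : MultilinearMap K (fun _ : κ => V) K),
      TT (D.rE g) (MultilinearMap.compLinearMapₗ (fun l => s' (w l)) φ) =
        MultilinearMap.compLinearMapₗ (fun l => s' (w l)) (TT (R g.1) φ) := by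
    intro w g φ
    refine MultilinearMap.ext fun v => ?_
    change φ (fun l => s' (w l) (D.rE g (v l))) = φ (fun l => R g.1 (s' (w l) (v l)))
    congr 1
    funext l
    rw [hsE]
  have key : ∀ (w : κ → Fin m),
      ∀ φ ∈ U.map (MultilinearMap.compLinearMapₗ (fun l => s' (w l))), ∀ a b,
        Fr.cls a = Fr.cls b → dF (SS Fr.ω (Fr.e a) (Fr.e b)) φ = 0 := by
    intro w φ hφ a b hab
    refine level_zero Fr D.hasProj hPTE (U.map (MultilinearMap.compLinearMapₗ
      (fun l => s' (w l)))) ?_ ?_ φ hφ a b hab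
    · rintro g _ ⟨φ, hφ, rfl⟩
      exact ⟨TT (R g.1) φ, hU g.1 g.2.2.2 φ hφ, (hTTs w g φ).symm⟩
    · intro q
      obtain ⟨g, Δ, hg0, hΔ, hgU, hgN⟩ := hN (D.W q) (D.si q)
      obtain ⟨N0, hN0, hgN0⟩ := exists_pow_mem D.Δ hDfi g
      have hpow : ∀ k : ℕ, ∀ φ ∈ U, TT (R (g ^ k)) φ ∈ U ∧
          ∀ s ∈ Δ, TT (R (g ^ k)) (TT (R s) φ) = TT (R s) (TT (R (g ^ k)) φ) := by
        intro k
        rw [map_pow, TT_pow]
        induction k with
        | zero => intro φ hφ; exact ⟨hφ, fun s _ => rfl⟩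
        | succ k ih =>
          intro φ hφ
          have h1 := hU g hg0 φ hφ
          refine ⟨?_, fun s hs => ?_⟩
          · rw [pow_succ, Module.End.mul_apply]
            exact (ih _ h1).1
          · rw [pow_succ, Module.End.mul_apply, Module.End.mul_apply, hgU s hs φ hφ,
              (ih _ h1).2 s hs]
      refine ⟨⟨g ^ N0, hgN0⟩, Δ.subgroupOf D.Δ, inferInstance, ?_, ?_⟩
      · rintro s hs _ ⟨φ, hφ, rfl⟩
        rw [Subgroup.mem_subgroupOf] at hs
        rw [hTTs, hTTs, hTTs, hTTs]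
        congr 1
        exact (hpow N0 φ hφ).2 s.1 hs
      · intro N hN1
        obtain ⟨u, hu, hu'⟩ := hgN (N0 * N) (Nat.mul_pos (Nat.pos_of_ne_zero hN0) hN1)
        refine ⟨Pi.single q ⟨u, hu⟩, hFr q _, ?_⟩
        intro h
        apply hu'
        have h1 : ∀ (k : ℕ) (v : D.E) (i : Fin s), ((((D.rE ⟨g ^ N0, hgN0⟩) ^ k) v i : D.W i) : V) =
            ((R (g ^ N0)) ^ k) (v i : V) := by
          intro k
          induction k with
          | zero => intro v i; rfl
          | succ k ih =>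
            intro v i
            rw [pow_succ, pow_succ, Module.End.mul_apply, Module.End.mul_apply, ih,
              Reps.rE_apply]
        have h2 := h1 (2 * N) (Pi.single q ⟨u, hu⟩) q
        rw [h, Pi.smul_apply, Pi.single_eq_same] at h2
        have h3 : D.cE ⟨g ^ N0, hgN0⟩ = χ g ^ N0 := map_pow χ g N0
        rw [h3, ← pow_mul] at h2
        have h4 : 2 * (N0 * N) = N0 * (2 * N) := by ring
        rw [h4, pow_mul, ← map_pow]
        exact h2.symm
  constructor
  · intro m' hκ φ hφ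
    refine IJ_decomp R χ D.rE D.cE s' p' hsp ?_ φ fun w =>
      fft_IJ Fr hκ _ (key w _ ⟨φ, hφ, rfl⟩)
    rintro a b B ⟨ΔB, hΔB, hB⟩
    have hfi := fi_map D.fi ΔB hΔB
    refine ⟨ΔB.map D.Δ.subtype, inferInstance, ?_⟩
    rintro _ ⟨g, hg, rfl⟩ u v
    change B (p' a (R g.1 u)) (p' b (R g.1 v)) = χ g.1 * B (p' a u) (p' b v)
    rw [hpE g, hpE g]
    exact hB g hg _ _
  · intro hodd φ hφ
    rw [Submodule.mem_bot]
    ext v
    have h1 : v = fun l => ∑ a, s' a (p' a (v l)) := by
      funext l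
      rw [hsp]
    rw [h1, MultilinearMap.map_sum, zero_apply]
    refine Finset.sum_eq_zero fun w _ => ?_
    have h2 := fft_odd Fr hodd _ (key w _ ⟨φ, hφ, rfl⟩)
    exact congrArg (fun ψ : MultilinearMap K (fun _ : κ => D.E) K => ψ (fun l => p' (w l) (v l))) h2

end

end Pool.Agent.Y128.RT
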