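import Mathlib
import Pool.Agent.H204R3.GP.Defs

/-!
# Tate classes on the products of the powers of an abelian variety with another variety

`V` is the rational Tate module `V_ℓ(A)` of an abelian variety `A` over a number field, `ρ` the
action of the Galois group `Γ` on it and `χ` the cyclotomic character. `M = H^b(Y, ℚ_ℓ(c))` is a
cohomology group of another variety `Y` with the action `τ` of `Γ`. The space
`H^a(A^n, ℚ_ℓ) ⊗ H^b(Y, ℚ_ℓ(c))` is the space of the alternating forms on `V ^ n` in `a` variables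
with values in `M`.
-/

namespace Pool.Agent.Y128.RT

open Pool.Agent.H204R3.GP

variable {k V M Γ : Type} [Field k] [AddCommGroup V] [Module k V] [AddCommGroup M] [Module k M]
  [Group Γ]

/-- A class in `H^a(A^n) ⊗ M`, that is an alternating form on `V ^ n` with values in `M`, is a Tate
class if it is fixed by a subgroup `Δ` of finite index of the Galois group: `f (s v) = s f(v)` for
`s` in `Δ`. -/
def IsTateClassWithValues (ρ : Representation k Γ V) (τ : Representation k Γ M) {n a : ℕ}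
    (f : (Fin n → V) [⋀^Fin a]→ₗ[k] M) : Prop :=
  ∃ Δ : Subgroup Γ, Δ.FiniteIndex ∧ ∀ s ∈ Δ, ∀ v : Fin a → Fin n → V,
    f (fun l i => ρ s (v l i)) = τ s (f v)

/-- The products `(B 0 ∧ ... ∧ B (m - 1)) ⊗ y`, `a = 2 m`, of Tate classes `B l` of degree two on
`A ^ n` and of a Tate class `y` on `Y`: a subgroup of finite index acts on `y` in `M` through the
`m`-th power of the cyclotomic character, so `y` is a Tate class in the twist `M(-m)`. -/
def productClasses (ρ : Representation k Γ V) (χ : Γ →* k) (τ : Representation k Γ M) (n a : ℕ) :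
    Set ((Fin n → V) [⋀^Fin a]→ₗ[k] M) :=
  {g | ∃ (m : ℕ) (e : Fin m × Fin 2 ≃ Fin a) (B : Fin m → (Fin n → V) [⋀^Fin 2]→ₗ[k] k) (y : M),
    (∀ l, IsTateClass ρ χ 1 (B l)) ∧
    (∃ Δ : Subgroup Γ, Δ.FiniteIndex ∧ ∀ s ∈ Δ, τ s y = χ s ^ m • y) ∧
    ∀ v : Fin a → Fin n → V, g v = (∑ σ : Equiv.Perm (Fin a), ((Equiv.Perm.sign σ : ℤ) : k) *
      ∏ l, B l ![v (σ (e (l, 0))), v (σ (e (l, 1)))]) • y}

/-- For every nonzero subspace `W` of `V` stable under `ρ` there is an element `g` whose action on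
`M` commutes with the action of a subgroup of finite index, and no positive power of which acts on
`W` as a scalar. -/
def NonscalarCentralElements (ρ : Representation k Γ V) (τ : Representation k Γ M) : Prop :=
  ∀ W : Submodule k V, W ≠ ⊥ → (∀ s, ∀ w ∈ W, ρ s w ∈ W) →
    ∃ g : Γ, (∃ Δ : Subgroup Γ, Δ.FiniteIndex ∧ ∀ s ∈ Δ, τ g * τ s = τ s * τ g) ∧
      ∀ N : ℕ, 0 < N → ∀ c : k, ∃ w ∈ W, ρ (g ^ N) w ≠ c • w

/-- For every nonzero subspace `W` of `V` stable under `ρ` there is an element `g` whose action on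
`M` commutes with the action of a subgroup of finite index, and such that the operator
`χ(g)⁻¹ ρ(g) ^ 2` has infinite order on `W` (for instance `g` may act on `M` as a scalar, or as the
identity, or the action of a subgroup of finite index on `M` may be commutative). -/
def CentralElementsActInfinitely (ρ : Representation k Γ V) (χ : Γ →* k)
    (τ : Representation k Γ M) : Prop :=
  ∀ W : Submodule k V, W ≠ ⊥ → (∀ s, ∀ w ∈ W, ρ s w ∈ W) →
    ∃ g : Γ, (∃ Δ : Subgroup Γ, Δ.FiniteIndex ∧ ∀ s ∈ Δ, τ g * τ s = τ s * τ g) ∧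
      ∀ N : ℕ, 0 < N → ∃ w ∈ W, ρ (g ^ (2 * N)) w ≠ χ g ^ N • w

theorem NonscalarCentralElements.infinite {ρ : Representation k Γ V} {τ : Representation k Γ M}
    (h : NonscalarCentralElements ρ τ) (χ : Γ →* k) : CentralElementsActInfinitely ρ χ τ := by
  intro W hW hWs
  obtain ⟨g, hg, hN⟩ := h W hW hWs
  exact ⟨g, hg, fun N hN0 => hN (2 * N) (by omega) _⟩

/-- The first example: an element which acts as a unipotent operator, not the identity, on `V`, and
trivially on `M` (inertia at a place of bad reduction of `A` and good reduction of `Y`). -/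
theorem nonscalar_of_unipotent [CharZero k] {ρ : Representation k Γ V} {τ : Representation k Γ M}
    (h : ∀ W : Submodule k V, W ≠ ⊥ → (∀ s, ∀ w ∈ W, ρ s w ∈ W) →
      ∃ g : Γ, τ g = 1 ∧ (ρ g - 1) * (ρ g - 1) = 0 ∧ ∃ w ∈ W, ρ g w ≠ w) :
    NonscalarCentralElements ρ τ := by
  intro W hW hWs
  obtain ⟨g, hg, h2, w, hw, hgw⟩ := h W hW hWs
  refine ⟨g, ⟨⊤, inferInstance, fun s _ => by rw [hg, one_mul, mul_one]⟩, fun N hN c => ?_⟩
  by_contra hcon
  push Not at hcon
  have hpow : ∀ j : ℕ, ρ (g ^ j) = 1 + (j : k) • (ρ g - 1) := by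
    intro j
    induction j with
    | zero => rw [pow_zero, map_one, Nat.cast_zero, zero_smul, add_zero]
    | succ j ih =>
      rw [pow_succ, map_mul, ih]
      have h3 : ρ g = 1 + (ρ g - 1) := by abel
      have h4 : (1 + (j : k) • (ρ g - 1)) * ρ g = (1 + (j : k) • (ρ g - 1)) * (1 + (ρ g - 1)) := by
        rw [← h3]
      rw [h4, add_mul, mul_add, mul_add, smul_mul_assoc, smul_mul_assoc, h2, smul_zero, mul_one,
        mul_one, one_mul, add_zero, Nat.cast_add, Nat.cast_one, add_smul, one_smul]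
      abel
  set n := ρ g - 1 with hn
  have hnn : ∀ v, n (n v) = 0 := fun v => congrArg (fun A : Module.End k V => A v) h2
  have hnw : n w ≠ 0 := by
    rw [hn]
    exact fun h => hgw (sub_eq_zero.1 h)
  have h1 : ∀ u ∈ W, u + (N : k) • n u = c • u := by
    intro u hu
    have h3 := hcon u hu
    rw [hpow] at h3
    exact h3
  have hnW : n w ∈ W := by
    rw [hn]
    exact W.sub_mem (hWs g w hw) hw
  have h3 := h1 _ hnW
  rw [hnn, smul_zero, add_zero] at h3
  have h4 : c = 1 := by
    have h5 : (c - 1) • n w = 0 := by rw [sub_smul, one_smul, ← h3, sub_self]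
    exact sub_eq_zero.1 ((smul_eq_zero.1 h5).resolve_right hnw)
  have h5 := h1 w hw
  rw [h4, one_smul, add_eq_left] at h5
  rcases smul_eq_zero.1 h5 with h6 | h6
  · exact (Nat.cast_ne_zero.2 hN.ne') h6
  · exact hnw h6

/-- The second example: a subgroup of finite index acts on `M` through commuting operators. -/
theorem nonscalar_of_commutative {ρ : Representation k Γ V} {τ : Representation k Γ M}
    (hc : ∃ Δ : Subgroup Γ, Δ.FiniteIndex ∧ ∀ s ∈ Δ, ∀ t ∈ Δ, τ s * τ t = τ t * τ s)
    (h : ∀ W : Submodule k V, W ≠ ⊥ → (∀ s, ∀ w ∈ W, ρ s w ∈ W) →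
      ∃ g : Γ, ∀ N : ℕ, 0 < N → ∀ c : k, ∃ w ∈ W, ρ (g ^ N) w ≠ c • w) :
    NonscalarCentralElements ρ τ := by
  intro W hW hWs
  obtain ⟨Δ, hΔ, hc⟩ := hc
  obtain ⟨g, hg⟩ := h W hW hWs
  have hi : Δ.normalCore.FiniteIndex := inferInstance
  have hm : g ^ Δ.normalCore.index ∈ Δ := Δ.normalCore_le (Δ.normalCore.pow_index_mem g)
  refine ⟨g ^ Δ.normalCore.index, ⟨Δ, hΔ, fun s hs => hc _ hm s hs⟩, fun N hN c => ?_⟩
  obtain ⟨w, hw, h1⟩ := hg (Δ.normalCore.index * N)
    (Nat.mul_pos (Nat.pos_of_ne_zero hi.index_ne_zero) hN) c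
  exact ⟨w, hw, by rwa [← pow_mul]⟩

end Pool.Agent.Y128.RT
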