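import Pool.Agent.Y128.RT.Clr
import Pool.Agent.Y128.RT.Defs
import Pool.Agent.Y128.GT.Fin

/-!
# Descent to the field of coefficients
-/

set_option linter.unusedSectionVars false

namespace Pool.Agent.Y128.RT

open Module TensorProduct Pool.Agent.H204R3.SP Pool.Agent.H204R3.GP
  Pool.Agent.W529.Ta Pool.Agent.W522.U Pool.Agent.TH776.FM Pool.Agent.TH776.FL
  Pool.Agent.Y128.GT

noncomputable section

section inf

variable {k V M Γ : Type} [Field k] [CharZero k] [AddCommGroup V] [Module k V]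
  [FiniteDimensional k V] [AddCommGroup M] [Module k M] [Group Γ] {ρ : Representation k Γ V}
  {χ : Γ →* k} {τ : Representation k Γ M}

/-- The operator commutes with a subgroup of finite index. -/
def Cen (τ : Representation k Γ M) (g : Γ) : Prop :=
  ∃ Δ : Subgroup Γ, Δ.FiniteIndex ∧ ∀ s ∈ Δ, τ g * τ s = τ s * τ g

theorem Cen.conj {g : Γ} (hg : Cen τ g) (s : Γ) : Cen τ (s⁻¹ * g * s) := by
  obtain ⟨Δ, hΔ, h⟩ := hg
  refine ⟨Δ.normalCore, inferInstance, fun t ht => ?_⟩
  have h1 : s * t * s⁻¹ ∈ Δ := Δ.normalCore_le (Subgroup.Normal.conj_mem inferInstance t ht s)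
  have h2 := h _ h1
  rw [← map_mul, ← map_mul] at h2 ⊢
  have h3 : s⁻¹ * g * s * t = s⁻¹ * (g * (s * t * s⁻¹)) * s := by group
  have h4 : t * (s⁻¹ * g * s) = s⁻¹ * (s * t * s⁻¹ * g) * s := by group
  rw [h3, h4, map_mul, map_mul, h2, ← map_mul, ← map_mul]

theorem Cen.pow {g : Γ} (hg : Cen τ g) (N : ℕ) : Cen τ (g ^ N) := by
  obtain ⟨Δ, hΔ, h⟩ := hg
  refine ⟨Δ, hΔ, fun t ht => ?_⟩
  have h1 : Commute (τ g) (τ t) := h t ht
  rw [map_pow]
  exact (h1.pow_left N).eq

theorem pow_scal {A : Γ} {w : V} {c : k} (hw : ρ A w = c • w) (j : ℕ) :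
    ρ (A ^ j) w = c ^ j • w := by
  induction j with
  | zero => rw [pow_zero, map_one, pow_zero, one_smul]; rfl
  | succ j ih => rw [pow_succ, map_mul, Module.End.mul_apply, hw, map_smul, ih, smul_smul,
      pow_succ, mul_comm]

/-- The vectors on which a power of each central element is a scalar. -/
def FF (ρ : Representation k Γ V) (χ : Γ →* k) (τ : Representation k Γ M) : Submodule k V where
  carrier := {v | ∀ g : Γ, Cen τ g → ∃ N : ℕ, 0 < N ∧ ρ (g ^ (2 * N)) v = χ g ^ N • v}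
  zero_mem' := fun g _ => ⟨1, one_pos, by rw [map_zero, smul_zero]⟩
  add_mem' := by
    intro u v hu hv g hg
    obtain ⟨N, hN, h1⟩ := hu g hg
    obtain ⟨N', hN', h2⟩ := hv g hg
    refine ⟨N * N', Nat.mul_pos hN hN', ?_⟩
    have e1 : g ^ (2 * (N * N')) = (g ^ (2 * N)) ^ N' := by rw [← pow_mul]; congr 1; ring
    have e2 : g ^ (2 * (N * N')) = (g ^ (2 * N')) ^ N := by rw [← pow_mul]; congr 1; ring
    rw [map_add, smul_add]
    congr 1
    · rw [e1, pow_scal h1, pow_mul]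
    · rw [e2, pow_scal h2, mul_comm N N', pow_mul]
  smul_mem' := by
    intro c v hv g hg
    obtain ⟨N, hN, h1⟩ := hv g hg
    exact ⟨N, hN, by rw [map_smul, h1, smul_comm]⟩

theorem FF_stable (s : Γ) : ∀ w ∈ FF ρ χ τ, ρ s w ∈ FF ρ χ τ := by
  intro w hw g hg
  obtain ⟨N, hN, h1⟩ := hw _ (hg.conj s)
  refine ⟨N, hN, ?_⟩
  have h2 : (s⁻¹ * g * s) ^ (2 * N) = s⁻¹ * g ^ (2 * N) * s := by
    have h3 := conj_pow (i := 2 * N) (a := s⁻¹) (b := g)
    rw [_root_.inv_inv] at h3
    exact h3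
  have hχ : χ (s⁻¹ * g * s) = χ g := by
    rw [map_mul, map_mul, mul_comm (χ s⁻¹), mul_assoc, ← map_mul, inv_mul_cancel, map_one, mul_one]
  rw [h2, hχ, mul_assoc, map_mul, Module.End.mul_apply, map_mul, Module.End.mul_apply] at h1
  have h3 := congrArg (ρ s) h1
  rw [← Module.End.mul_apply, ← map_mul, mul_inv_cancel, map_one, Module.End.one_apply,
    map_smul] at h3
  exact h3

theorem FF_bot (hN : CentralElementsActInfinitely ρ χ τ) : FF ρ χ τ = ⊥ := by
  classical
  by_contra hne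
  obtain ⟨g, hg, hinf⟩ := hN (FF ρ χ τ) hne FF_stable
  -- a common power
  obtain ⟨S, hS⟩ := (inferInstance : IsNoetherian k V).noetherian (FF ρ χ τ)
  have hSm : ∀ v ∈ S, ∃ N : ℕ, 0 < N ∧ ρ (g ^ (2 * N)) v = χ g ^ N • v := by
    intro v hv
    have h1 : v ∈ FF ρ χ τ := by
      rw [← hS]
      exact Submodule.subset_span hv
    exact h1 g hg
  choose! N hN0 hN1 using hSm
  obtain ⟨w, hw, hw'⟩ := hinf (∏ v ∈ S, N v) (Finset.prod_pos hN0)
  apply hw'
  rw [← hS] at hw
  clear hw'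
  induction hw using Submodule.span_induction with
  | mem x hx =>
    obtain ⟨c, hc⟩ := Finset.dvd_prod_of_mem N hx
    have e1 : g ^ (2 * (N x * c)) = (g ^ (2 * N x)) ^ c := by rw [← pow_mul]; congr 1; ring
    rw [hc, e1, pow_scal (hN1 x hx), pow_mul]
  | zero => rw [map_zero, smul_zero]
  | add x y _ _ hx hy => rw [map_add, hx, hy, smul_add]
  | smul c x _ hx => rw [map_smul, hx, smul_comm]

/-- The condition over an extension. -/
theorem inf_ext {Ω : Type} [Field Ω] [Algebra k Ω] (hN : CentralElementsActInfinitely ρ χ τ)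
    (W : Submodule Ω (Ω ⊗[k] V)) (hW : W ≠ ⊥) :
    ∃ g : Γ, Cen τ g ∧ ∀ N : ℕ, 0 < N → ∃ u ∈ W,
      bcr ρ Ω (g ^ (2 * N)) u ≠ (algebraMap k Ω (χ g)) ^ N • u := by
  classical
  by_contra hcon
  push Not at hcon
  apply hW
  rw [eq_bot_iff]
  intro u hu
  rw [Submodule.mem_bot]
  -- the components of `u`
  let Pi : (Ω →ₗ[k] k) → (Ω ⊗[k] V →ₗ[k] V) := fun π =>
    (TensorProduct.lid k V).toLinearMap.comp (LinearMap.rTensor V π)
  have hPi : ∀ π (c : Ω) (v : V), Pi π (c ⊗ₜ[k] v) = π c • v := fun π c v => by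
    change TensorProduct.lid k V (LinearMap.rTensor V π (c ⊗ₜ[k] v)) = _
    rw [LinearMap.rTensor_tmul, TensorProduct.lid_tmul]
  have hPis : ∀ π (s : Γ) (x : Ω ⊗[k] V), Pi π (bcr ρ Ω s x) = ρ s (Pi π x) := by
    intro π s x
    induction x using TensorProduct.induction_on with
    | zero => rw [map_zero, map_zero, map_zero]
    | add x y hx hy => rw [map_add, map_add, map_add, map_add, hx, hy]
    | tmul c v =>
      have h1 : bcr ρ Ω s (c ⊗ₜ[k] v) = c ⊗ₜ[k] ρ s v := LinearMap.baseChange_tmul _ _ _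
      rw [h1, hPi, hPi, map_smul]
  have h0 : ∀ π, Pi π u = 0 := by
    intro π
    have h1 : Pi π u ∈ FF ρ χ τ := by
      intro g hg
      obtain ⟨N, hN0, h2⟩ := hcon g hg
      refine ⟨N, hN0, ?_⟩
      rw [← hPis, h2 u hu, ← map_pow, algebraMap_smul, map_smul]
    rw [FF_bot hN, Submodule.mem_bot] at h1
    exact h1
  let b := Module.finBasis k V
  apply (b.baseChange Ω).repr.injective
  ext i
  rw [map_zero, Finsupp.zero_apply]
  by_contra hne
  obtain ⟨π, hπ⟩ : ∃ π : Ω →ₗ[k] k, π ((b.baseChange Ω).repr u i) ≠ 0 := by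
    by_contra h1
    push Not at h1
    exact hne ((Module.forall_dual_apply_eq_zero_iff k _).1 h1)
  apply hπ
  have h2 : ∀ x : Ω ⊗[k] V, π ((b.baseChange Ω).repr x i) = b.repr (Pi π x) i := by
    intro x
    induction x using TensorProduct.induction_on with
    | zero => rw [map_zero, map_zero, Finsupp.zero_apply, map_zero, map_zero, Finsupp.zero_apply]
    | add x y hx hy =>
      rw [map_add, Finsupp.add_apply, map_add, hx, hy, map_add, map_add, Finsupp.add_apply]
    | tmul c v =>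
      rw [Basis.baseChange_repr_tmul, hPi, map_smul, map_smul, Finsupp.smul_apply, smul_eq_mul,
        smul_eq_mul, mul_comm]
  rw [h2, h0, map_zero, Finsupp.zero_apply]

end inf

end

end Pool.Agent.Y128.RT
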