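import Pool.Agent.Y128.GT.FrameOf

/-!
# The frame of the sum of the representatives, without an ordinary element
-/

set_option linter.unusedSectionVars false

namespace Pool.Agent.Y128.GT

open Module Pool.Agent.H204R3.SP Pool.Agent.H204R3.GP Pool.Agent.W529.Ta Pool.Agent.W522.U

noncomputable section

variable {K : Type} [Field K] [CharZero K] {X : Type} [AddCommGroup X] [Module K X]
  {Γ : Type} [Group Γ] {R : Representation K Γ X} {χ : Γ →* K} {s : ℕ} (D : Reps R χ s)

namespace Reps

/-- A smaller subgroup. -/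
abbrev shrink (Δ' : Subgroup Γ) (hΔ' : Δ'.FiniteIndex) : Reps R χ s where
  W := D.W
  si := D.si
  iso := D.iso
  all := D.all
  Δ := D.Δ ⊓ Δ'
  fi := by
    have := D.fi
    infer_instance
  st i g hg := D.st i g hg.1
  B := D.B
  alt := D.alt
  ne := D.ne
  sim i g hg := D.sim i g hg.1

/-- **The frame.** -/
theorem exists_frame' [IsAlgClosed K] [FiniteDimensional K X] :
    ∃ (n : ℕ) (Fr : Frame D.rE D.cE (Fin n ⊕ Fin n) (Fin s)),
      ∀ (i : Fin s) (u : D.W i), Fr.pr i (Pi.single i u) = Pi.single i u := by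
  classical
  obtain ⟨n, e0, lab, α, hlab, hlabs, he0, he1, hgen, hαα⟩ := exists_graded
    (r := fun i => resR R D.Δ (D.W i) (D.st i)) (χ := D.cE) D.om D.om_alt D.om_nondeg D.om_sim id
    (fun _ => rfl) (by
      intro i j hij u v
      rw [om_apply]
      refine Finset.sum_eq_zero fun l _ => ?_
      by_cases hl : l = i
      · subst hl
        have hij' : l ≠ j := fun h => hij h.symm
        rw [Pi.single_eq_of_ne hij', ZeroMemClass.coe_zero, map_zero]
      · rw [Pi.single_eq_of_ne hl, ZeroMemClass.coe_zero, map_zero, LinearMap.zero_apply]) 1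
  let sg : Fin n ⊕ Fin n → Bool := fun x => x.isLeft
  have hsgs : ∀ x, sg x.swap = !sg x := by
    rintro (i | i) <;> rfl
  -- the scaled basis
  let c : Fin n ⊕ Fin n → K := fun x => D.om (e0 x) (e0 x.swap)
  have hcs : ∀ x, c x.swap = -c x := by
    intro x
    simp only [c, Sum.swap_swap]
    exact alt_anti D.om_alt _ _
  have hjj0 : ∀ x, jj K sg x ≠ 0 := by
    intro x
    unfold jj
    split_ifs <;> norm_num
  have hjjs : ∀ x, jj K sg x.swap = -jj K sg x := by
    intro x
    unfold jj
    rw [hsgs]
    cases sg x <;> simp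
  let w : Fin n ⊕ Fin n → K := Sum.elim (fun _ => 1) (fun i => jj K sg (Sum.inl i) *
    (c (Sum.inl i))⁻¹)
  have hw0 : ∀ x, w x ≠ 0 := by
    rintro (i | i)
    · exact one_ne_zero
    · exact mul_ne_zero (hjj0 _) (inv_ne_zero (he1 _))
  let e := e0.unitsSMul (fun x => Units.mk0 (w x) (hw0 x))
  have he : ∀ x, e x = w x • e0 x := fun x => Basis.unitsSMul_apply x
  have hww : ∀ x, w x * w x.swap * c x = jj K sg x := by
    rintro (i | i)
    · change 1 * (jj K sg (Sum.inl i) * (c (Sum.inl i))⁻¹) * c (Sum.inl i) = _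
      rw [one_mul, mul_assoc, inv_mul_cancel₀ (he1 _), mul_one]
    · change (jj K sg (Sum.inl i) * (c (Sum.inl i))⁻¹) * 1 * c (Sum.inr i) = _
      have h1 := hcs (Sum.inl i)
      rw [Sum.swap_inl] at h1
      have h2 := hjjs (Sum.inl i)
      rw [Sum.swap_inl] at h2
      rw [h1, h2, mul_one, mul_neg, mul_assoc, inv_mul_cancel₀ (he1 _), mul_one]
  have hrepr : ∀ (v : D.E) (y : Fin n ⊕ Fin n), v (lab y) = 0 → e.repr v y = 0 := by
    intro v y hvy
    have h1 : D.om (e y.swap) v = 0 := by
      rw [he, map_smul, LinearMap.smul_apply, om_apply, Finset.sum_eq_zero, smul_zero]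
      intro i _
      by_cases hi : i = lab y.swap
      · rw [hi, hlabs]
        change D.B _ _ ((v (lab y) : D.W _) : X) = 0
        rw [hvy, ZeroMemClass.coe_zero, map_zero]
      · have h2 : e0 y.swap i = 0 := by
          rw [hlab, Pi.single_eq_of_ne hi]
        rw [h2, ZeroMemClass.coe_zero, map_zero, LinearMap.zero_apply]
    rw [← e.sum_repr v, map_sum, Finset.sum_eq_single y] at h1
    · rw [map_smul, he, he, map_smul, map_smul, LinearMap.smul_apply, smul_eq_mul, smul_eq_mul,
        smul_eq_mul] at h1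
      have h2 : D.om (e0 y.swap) (e0 y) ≠ 0 := by
        have h3 := he1 y.swap
        rwa [Sum.swap_swap] at h3
      rcases mul_eq_zero.1 h1 with h3 | h3
      · exact h3
      · exact absurd h3 (mul_ne_zero (hw0 _) (mul_ne_zero (hw0 _) h2))
    · intro b _ hb
      rw [map_smul, he, he, map_smul, map_smul, LinearMap.smul_apply, he0, smul_zero, smul_zero,
        smul_zero]
      rw [Sum.swap_swap]
      exact hb
    · intro h
      exact absurd (Finset.mem_univ _) h
  let Fr : Frame D.rE D.cE (Fin n ⊕ Fin n) (Fin s) :=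
    { e := e, inv := Sum.swap, cls := lab, sg := sg, ω := D.om
      inv_inv := Sum.swap_swap, cls_inv := fun x => hlabs x, sg_inv := hsgs
      hω := by
        intro x y
        rw [he, he, map_smul, map_smul, LinearMap.smul_apply, smul_eq_mul, smul_eq_mul, JJ]
        split_ifs with hxy
        · rw [hxy, ← hww x]
          ring
        · rw [he0 x y hxy, mul_zero, mul_zero]
      weil := D.om_sim
      block := by
        intro g x y hxy
        refine hrepr _ _ ?_
        apply Subtype.ext
        rw [rE_apply, he]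
        have h2 : e0 x (lab y) = 0 := by
          rw [hlab, Pi.single_eq_of_ne hxy]
        change R g.1 (w x • ((e0 x (lab y) : D.W _) : X)) = 0
        rw [h2, ZeroMemClass.coe_zero, smul_zero, map_zero]
      schur := by
        intro Δ' hΔ' P hP
        obtain ⟨c', hc'⟩ := D.schur Δ' hΔ' P hP
        refine ⟨c', fun x => ?_⟩
        rw [he, map_smul, hlab x, hc', smul_comm] }
  refine ⟨n, Fr, fun i u => ?_⟩
  apply Fr.e.repr.injective
  ext x
  rw [Frame.pr_repr]
  split_ifs with hx
  · rfl
  · symm
    refine hrepr _ _ ?_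
    exact Pi.single_eq_of_ne hx _

end Reps

end

end Pool.Agent.Y128.GT
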