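import Pool.Agent.Y128.RT.Log

/-!
# Forms fixed by an operator of infinite order
-/

set_option linter.unusedSectionVars false

namespace Pool.Agent.Y128.RT

open Module Polynomial Pool.Agent.H204R3.SP Pool.Agent.H204R3.GP Pool.Agent.W529.Ta
  Pool.Agent.Y128.GT

noncomputable section

variable {K : Type} [Field K] [CharZero K] {X : Type} [AddCommGroup X] [Module K X]

section fn

variable {ι : Type} [Fintype ι] [DecidableEq ι] (b : Basis ι K X) (μ : ι → K)

/-- The functions of a diagonal operator. -/
def fn (c : K → K) : Module.End K X := b.constr K fun i => c (μ i) • b i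

theorem fn_b (c : K → K) (i : ι) : fn b μ c (b i) = c (μ i) • b i := by
  rw [fn, Basis.constr_basis]

theorem fn_repr (c : K → K) (v : X) (i : ι) :
    b.repr (fn b μ c v) i = c (μ i) * b.repr v i := by
  conv_lhs => rw [← b.sum_repr v]
  rw [map_sum, map_sum, Finsupp.finsetSum_apply, Finset.sum_eq_single i]
  · rw [map_smul, fn_b, map_smul, map_smul, b.repr_self, Finsupp.smul_apply,
      Finsupp.smul_apply, Finsupp.single_eq_same, smul_eq_mul, smul_eq_mul]
    ring
  · intro a _ hab
    rw [map_smul, fn_b, map_smul, map_smul, b.repr_self, Finsupp.smul_apply,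
      Finsupp.smul_apply, Finsupp.single_eq_of_ne hab.symm, smul_zero, smul_zero]
  · intro h
    exact absurd (Finset.mem_univ _) h

variable {b μ} {s : Module.End K X} (hs : ∀ i, s (b i) = μ i • b i)

include hs in
theorem eq_fn : s = fn b μ id := by
  refine b.ext fun i => ?_
  rw [fn_b, hs]
  rfl

include hs in
theorem fn_eig (c : K → K) {ν : K} {v : X} (hv : s v = ν • v) : fn b μ c v = c ν • v := by
  apply b.repr.injective
  ext i
  rw [fn_repr, map_smul, Finsupp.smul_apply, smul_eq_mul]
  have h1 : μ i * b.repr v i = ν * b.repr v i := by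
    have h2 : b.repr (s v) i = b.repr (ν • v) i := by rw [hv]
    rw [eq_fn hs, fn_repr, map_smul, Finsupp.smul_apply, smul_eq_mul] at h2
    exact h2
  by_cases h : b.repr v i = 0
  · rw [h, mul_zero, mul_zero]
  · rw [mul_right_cancel₀ h h1]

include hs in
theorem fn_comm (c : K → K) {A : Module.End K X} (hA : ∀ v, s (A v) = A (s v)) (v : X) :
    fn b μ c (A v) = A (fn b μ c v) := by
  have h : (fn b μ c).comp A = A.comp (fn b μ c) := by
    refine b.ext fun i => ?_
    rw [LinearMap.comp_apply, LinearMap.comp_apply, fn_b, map_smul]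
    exact fn_eig hs c (by rw [hA, hs, map_smul])
  exact congrArg (fun T : Module.End K X => T v) h

end fn

/-- A fixed form vanishes on eigenvectors of the semisimple part if the product of the eigenvalues
is not one. -/
theorem fix_weight {κ : Type} [Fintype κ] [DecidableEq κ] {T s n : Module.End K X}
    (hT : ∀ v, T v = s (v + n v)) (hc : ∀ v, s (n v) = n (s v))
    (φ : MultilinearMap K (fun _ : κ => X) K) (hφ : TT T φ = φ) (M : ℕ) :
    ∀ (μ : κ → K) (h : κ → ℕ) (v : κ → X), (∀ l, s (v l) = μ l • v l) →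
      (∀ l, (n ^ (h l)) (v l) = 0) → ∑ l, h l ≤ M → ∏ l, μ l ≠ 1 → φ v = 0 := by
  induction M with
  | zero =>
    intro μ h v hs hn hM hμ
    have hv : ∀ l, v l = 0 := by
      intro l
      have h1 : h l = 0 := by
        have h2 := Finset.single_le_sum (f := h) (fun i _ => Nat.zero_le _) (Finset.mem_univ l)
        omega
      have h2 := hn l
      rwa [h1, pow_zero, Module.End.one_apply] at h2
    rcases isEmpty_or_nonempty κ with hκ | hκ
    · refine absurd ?_ hμ
      rw [Finset.univ_eq_empty, Finset.prod_empty]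
    · obtain ⟨l⟩ := hκ
      exact φ.map_coord_zero l (hv l)
  | succ M ih =>
    intro μ h v hs hn hM hμ
    have h1 : φ v = (∏ l, μ l) * φ ((fun l => n (v l)) + v) := by
      have h2 : φ v = φ (fun l => T (v l)) := by
        conv_lhs => rw [← hφ]
        rfl
      have h3 : (fun l => T (v l)) = fun l => μ l • ((fun l => n (v l)) + v) l := by
        funext l
        rw [hT, map_add, hc, hs, map_smul, Pi.add_apply, smul_add, add_comm]
      rw [h2, h3, MultilinearMap.map_smul_univ, smul_eq_mul]
    have h2 : φ ((fun l => n (v l)) + v) = φ v := by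
      rw [MultilinearMap.map_add_univ, Finset.sum_eq_single ∅]
      · rw [Finset.piecewise_empty]
      · intro S _ hS
        obtain ⟨l0, hl0⟩ := Finset.nonempty_iff_ne_empty.2 hS
        by_cases hz : ∃ l ∈ S, h l = 0
        · obtain ⟨l, hl, hlz⟩ := hz
          refine φ.map_coord_zero l ?_
          rw [Finset.piecewise_eq_of_mem _ _ _ hl]
          have h3 := hn l
          rw [hlz, pow_zero, Module.End.one_apply] at h3
          rw [h3, map_zero]
        · push Not at hz
          refine ih μ (S.piecewise (fun l => h l - 1) h) _ (fun l => ?_) (fun l => ?_) ?_ hμ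
          · by_cases hl : l ∈ S
            · rw [Finset.piecewise_eq_of_mem _ _ _ hl, hc, hs, map_smul]
            · rw [Finset.piecewise_eq_of_notMem _ _ _ hl, hs]
          · by_cases hl : l ∈ S
            · rw [Finset.piecewise_eq_of_mem _ _ _ hl, Finset.piecewise_eq_of_mem _ _ _ hl]
              have h3 := hn l
              obtain ⟨a, ha⟩ := Nat.exists_eq_succ_of_ne_zero (hz l hl)
              rw [ha] at h3 ⊢
              rw [pow_succ, Module.End.mul_apply] at h3
              exact h3
            · rw [Finset.piecewise_eq_of_notMem _ _ _ hl, Finset.piecewise_eq_of_notMem _ _ _ hl]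
              exact hn l
          · have h3 : ∑ l, S.piecewise (fun l => h l - 1) h l < ∑ l, h l := by
              refine Finset.sum_lt_sum (fun l _ => ?_) ⟨l0, Finset.mem_univ _, ?_⟩
              · by_cases hl : l ∈ S
                · rw [Finset.piecewise_eq_of_mem _ _ _ hl]
                  exact Nat.sub_le _ _
                · rw [Finset.piecewise_eq_of_notMem _ _ _ hl]
              · rw [Finset.piecewise_eq_of_mem _ _ _ hl0]
                have h4 := hz l0 hl0
                omega
            omega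
      · intro h
        exact absurd (Finset.mem_univ _) h
    rw [h2] at h1
    have h3 : (1 - ∏ l, μ l) * φ v = 0 := by linear_combination h1
    exact (mul_eq_zero.1 h3).resolve_left (sub_ne_zero.2 (Ne.symm hμ))

/-- A homomorphism to the additive group which does not kill a given element of infinite order. -/
theorem exists_hom (μ0 : K) (h0 : μ0 ≠ 0) (hinf : ∀ N : ℕ, 0 < N → μ0 ^ N ≠ 1) :
    ∃ lam : K → K, (∀ a b, a ≠ 0 → b ≠ 0 → lam (a * b) = lam a + lam b) ∧ lam 1 = 0 ∧
      lam μ0 ≠ 0 := by
  classical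
  let u0 : Kˣ := Units.mk0 μ0 h0
  let f : ℤ →+ Additive Kˣ := zmultiplesHom _ (Additive.ofMul u0)
  have hf : Function.Injective f := by
    rw [injective_iff_map_eq_zero]
    intro z hz
    have h1 : u0 ^ z = 1 := hz
    by_contra hz0
    have h2 : u0 ^ (z.natAbs) = 1 := by
      rcases Int.natAbs_eq z with h | h
      · rw [h, zpow_natCast] at h1
        exact h1
      · rw [h, zpow_neg, zpow_natCast, inv_eq_one] at h1
        exact h1
    refine hinf z.natAbs (Int.natAbs_pos.2 hz0) ?_
    have h3 := congrArg (fun u : Kˣ => (u : K)) h2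
    simpa [u0] using h3
  have hB : Module.Baer ℤ K := Module.Baer.of_divisible K
  obtain ⟨h, hh⟩ := hB.extension_property_addMonoidHom f hf (zmultiplesHom K (1 : K))
  have h1 : h (Additive.ofMul u0) = 1 := by
    have h2 := congrArg (fun g : ℤ →+ K => g 1) hh
    simpa [f] using h2
  refine ⟨fun a => if ha : a ≠ 0 then h (Additive.ofMul (Units.mk0 a ha)) else 0, ?_, ?_, ?_⟩
  · intro a b ha hb
    simp only [dif_pos ha, dif_pos hb, dif_pos (mul_ne_zero ha hb)]
    rw [← map_add, ← ofMul_mul, Units.mk0_mul]
  · change (if ha : (1 : K) ≠ 0 then h (Additive.ofMul (Units.mk0 1 ha)) else 0) = 0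
    rw [dif_pos one_ne_zero, Units.mk0_one, ofMul_one, map_zero]
  · change (if ha : μ0 ≠ 0 then h (Additive.ofMul (Units.mk0 μ0 ha)) else 0) ≠ 0
    rw [dif_pos h0]
    have h2 : h (Additive.ofMul (Units.mk0 μ0 h0)) = 1 := h1
    rw [h2]
    exact one_ne_zero

/-- A semisimple operator is diagonal. -/
theorem exists_diag' [IsAlgClosed K] [FiniteDimensional K X] {s : Module.End K X}
    (hs : s.IsSemisimple) : ∃ (m : ℕ) (b : Basis (Fin m) K X) (μ : Fin m → K),
      ∀ i, s (b i) = μ i • b i := by
  classical
  let t : Set X := {x | ∃ μ : K, s x = μ • x}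
  have ht : ⊤ ≤ Submodule.span K t := by
    rw [← Module.End.iSup_maxGenEigenspace_eq_top s]
    refine iSup_le fun μ x hx => Submodule.subset_span ⟨μ, ?_⟩
    rw [(Module.End.IsSemisimple.isFinitelySemisimple hs).maxGenEigenspace_eq_eigenspace] at hx
    exact Module.End.mem_eigenspace_iff.1 hx
  let b0 := Basis.ofSpan ht
  have hfin : Finite ((linearIndepOn_empty K id).extend (Set.empty_subset t)) :=
    Module.Finite.finite_basis b0
  obtain ⟨m, ⟨ε⟩⟩ := Finite.exists_equiv_fin ((linearIndepOn_empty K id).extend (Set.empty_subset t))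
  have h1 : ∀ i, ∃ μ : K, s (b0 i) = μ • b0 i := fun i =>
    Basis.ofSpan_subset ht (Set.mem_range_self i)
  choose μ hμ using h1
  refine ⟨m, b0.reindex ε, fun i => μ (ε.symm i), fun i => ?_⟩
  rw [Basis.reindex_apply, hμ]

/-- The multiplicative decomposition. -/
theorem jordan [IsAlgClosed K] [FiniteDimensional K X] (T : Module.End K X)
    (hT : ∀ v, T v = 0 → v = 0) :
    ∃ (m : ℕ) (b : Basis (Fin m) K X) (μ : Fin m → K) (s n n0 : Module.End K X) (d : ℕ),
      (∀ i, s (b i) = μ i • b i) ∧ (∀ i, μ i ≠ 0) ∧ (∀ v, T v = s (v + n v)) ∧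
      (∀ v, s (n v) = n (s v)) ∧ n ^ d = 0 ∧ 2 ≤ d ∧ s ∈ Algebra.adjoin K {T} ∧
      n0 ∈ Algebra.adjoin K {T} ∧ n0 ^ d = 0 ∧ (∀ v, T v = n0 v + s v) ∧
      (∀ v, s (n v) = n0 v) := by
  classical
  obtain ⟨n0, hn0, s, hs, ⟨d0, hd0⟩, hss, hTs⟩ := Module.End.exists_isNilpotent_isSemisimple (f := T)
  obtain ⟨m, b, μ, hb⟩ := exists_diag' hss
  have hcom : ∀ v, s (n0 v) = n0 (s v) := by
    intro v
    have h0 : Commute T s := Algebra.commute_of_mem_adjoin_self hs
    have h1 : Commute s n0 := Algebra.commute_of_mem_adjoin_singleton_of_commute hn0 h0.symm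
    exact congrArg (fun A : Module.End K X => A v) h1.eq
  have hμ0 : ∀ i, μ i ≠ 0 := by
    intro i hi
    -- `s (b i) = 0`, so `T` is nilpotent on `b i`
    have h1 : ∀ k : ℕ, (T ^ k) (b i) = (n0 ^ k) (b i) ∧ s ((n0 ^ k) (b i)) = 0 := by
      intro k
      induction k with
      | zero =>
        refine ⟨by rw [pow_zero, pow_zero], ?_⟩
        rw [pow_zero, Module.End.one_apply, hb, hi, zero_smul]
      | succ k ih =>
        have h2 : s ((n0 ^ (k + 1)) (b i)) = 0 := by
          rw [pow_succ', Module.End.mul_apply, hcom, ih.2, map_zero]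
        refine ⟨?_, h2⟩
        rw [pow_succ', Module.End.mul_apply, ih.1, pow_succ', Module.End.mul_apply, hTs,
          LinearMap.add_apply, ih.2, add_zero]
    have h2 : (T ^ d0) (b i) = 0 := by rw [(h1 d0).1, hd0]; rfl
    have h3 : ∀ k : ℕ, ∀ v, (T ^ k) v = 0 → v = 0 := by
      intro k
      induction k with
      | zero => intro v hv; exact hv
      | succ k ih =>
        intro v hv
        rw [pow_succ, Module.End.mul_apply] at hv
        exact hT _ (ih _ hv)
    exact b.ne_zero i (h3 d0 _ h2)
  let si := fn b μ (fun x => x⁻¹)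
  have hsi : ∀ v, s (si v) = v := by
    intro v
    have h1 : s.comp si = LinearMap.id := by
      refine b.ext fun i => ?_
      rw [LinearMap.comp_apply, fn_b, map_smul, hb, smul_smul, inv_mul_cancel₀ (hμ0 i), one_smul]
      rfl
    exact congrArg (fun A : Module.End K X => A v) h1
  have hsic : ∀ v, si (n0 v) = n0 (si v) := fn_comm hb _ hcom
  have hsis : ∀ v, si (s v) = s (si v) := fn_comm hb _ (fun _ => rfl)
  have hpow : ∀ k : ℕ, ∀ v, ((si * n0) ^ k) v = (si ^ k) ((n0 ^ k) v) := by
    intro k
    have h1 : Commute si n0 := by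
      refine LinearMap.ext fun v => ?_
      exact hsic v
    intro v
    rw [h1.mul_pow]
    rfl
  refine ⟨m, b, μ, s, si * n0, n0, d0 + 2, hb, hμ0, fun v => ?_, fun v => ?_, ?_, by omega, hs, hn0,
    ?_, fun v => ?_, fun v => ?_⟩
  · rw [map_add, Module.End.mul_apply, hsi, hTs, LinearMap.add_apply, add_comm]
  · rw [Module.End.mul_apply, Module.End.mul_apply, hsi, ← hcom, hsis, hsi]
  · refine LinearMap.ext fun v => ?_
    rw [hpow, pow_add n0, hd0, zero_mul, LinearMap.zero_apply, map_zero]
  · rw [pow_add, hd0, zero_mul]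
  · rw [hTs, LinearMap.add_apply]
  · rw [Module.End.mul_apply, hsi]

end

end Pool.Agent.Y128.RT
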