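import Pool.Agent.Y128.GT.LieB

/-!
# Lie algebras of endomorphisms stable under the group
-/

set_option linter.unusedSectionVars false

namespace Pool.Agent.Y128.RT

open Module Pool.Agent.H204R3.SP Pool.Agent.H204R3.GP Pool.Agent.W529.Ta
  Pool.Agent.TH131.GHC Pool.Agent.Y128.GT

noncomputable section

attribute [local instance 100] LieRing.ofAssociativeRing

variable {K : Type} [Field K] [CharZero K] {X : Type} [AddCommGroup X] [Module K X]
  {Γ : Type} [Group Γ] {R : Representation K Γ X} {χ : Γ →* K}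
  {ι Q : Type} [Fintype ι] [DecidableEq ι] [Fintype Q] [DecidableEq Q] (Fr : Frame R χ ι Q)

include Fr in
/-- The trace form of a Lie algebra of this kind is not degenerate. -/
theorem tr_nondeg' [IsAlgClosed K] (hss : HasProj R) {L : Submodule K (Module.End K X)}
    (hgg : L ≤ gg R χ) (hbr : ∀ x ∈ L, ∀ y ∈ L, x * y - y * x ∈ L)
    (hc : ∀ (s : Γ), ∀ x ∈ L, R s * x * R s⁻¹ ∈ L) {x : Module.End K X} (hx : x ∈ L)
    (h : ∀ y ∈ L, LinearMap.trace K X (x * y) = 0) : x = 0 := by
  classical
  have hfd : FiniteDimensional K X := Module.Finite.of_basis Fr.e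
  have hfree : Module.Free K X := Module.Free.of_basis Fr.e
  let r : LieSubalgebra K (Module.End K X) :=
    { carrier := {x | x ∈ L ∧ ∀ y ∈ L, LinearMap.trace K X (x * y) = 0}
      add_mem' := by
        rintro a b ⟨ha, ha'⟩ ⟨hb, hb'⟩
        refine ⟨Submodule.add_mem _ ha hb, fun y hy => ?_⟩
        rw [add_mul, map_add, ha' y hy, hb' y hy, add_zero]
      zero_mem' := ⟨Submodule.zero_mem _, fun y _ => by rw [zero_mul, map_zero]⟩
      smul_mem' := by
        rintro c a ⟨ha, ha'⟩
        refine ⟨Submodule.smul_mem _ c ha, fun y hy => ?_⟩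
        rw [smul_mul_assoc, map_smul, ha' y hy, smul_zero]
      lie_mem' := by
        rintro a b ⟨ha, ha'⟩ ⟨hb, hb'⟩
        rw [LieRing.of_associative_ring_bracket]
        refine ⟨hbr _ ha _ hb, fun y hy => ?_⟩
        have h1 := ha' _ (hbr _ hb _ hy)
        rw [mul_sub, map_sub] at h1
        rw [sub_mul, map_sub, mul_assoc, mul_assoc, LinearMap.trace_mul_comm K b (a * y),
          mul_assoc, h1] }
  have htr : LieModule.traceForm K r X = 0 := by
    refine LinearMap.ext fun a => LinearMap.ext fun b => ?_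
    rw [LieModule.traceForm_apply_apply, LinearMap.zero_apply, LinearMap.zero_apply]
    exact a.2.2 b b.2.1
  have hn : LieModule.IsNilpotent (LieAlgebra.derivedSeries K r 1) X :=
    LieModule.isNilpotent_derivedSeries_of_traceForm_eq_zero htr
  have hn' : LieRing.IsNilpotent (LieAlgebra.derivedSeries K r 1) := by
    rw [LieAlgebra.isNilpotent_iff_forall (R := K)]
    rintro ⟨a, ha⟩
    apply LieSubalgebra.isNilpotent_ad_of_isNilpotent_ad
      ((LieAlgebra.derivedSeries K r 1 : LieIdeal K r) : LieSubalgebra K r) (x := ⟨a, ha⟩)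
    apply LieAlgebra.isNilpotent_ad_of_isNilpotent
    exact (LieModule.isNilpotent_iff_forall' (R := K)).mp hn ⟨a, ha⟩
  have hsol : LieAlgebra.IsSolvable r := by
    obtain ⟨k, hk⟩ := LieAlgebra.IsSolvable.solvable K (LieAlgebra.derivedSeries K r 1)
    rw [LieIdeal.derivedSeries_eq_bot_iff] at hk
    refine LieAlgebra.IsSolvable.mk (R := K) (k := k + 1) ?_
    change LieAlgebra.derivedSeriesOfIdeal K r (k + 1) ⊤ = ⊥
    rw [LieAlgebra.derivedSeriesOfIdeal_add]
    exact hk
  refine Fr.solv hss r (fun y hy => hgg hy.1) (fun s y hy => ?_) x ⟨hx, h⟩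
  refine ⟨hc s _ hy.1, fun z hz => ?_⟩
  have h1 := hc s⁻¹ _ hz
  rw [_root_.inv_inv] at h1
  have h2 := hy.2 _ h1
  rw [← h2]
  have h3 : R s * y * R s⁻¹ * z = R s * (y * (R s⁻¹ * z)) := by simp only [mul_assoc]
  have h4 : y * (R s⁻¹ * z * R s) = (y * (R s⁻¹ * z)) * R s := by simp only [mul_assoc]
  rw [h3, h4, LinearMap.trace_mul_comm]

include Fr in
/-- The Lie algebra is an ideal. -/
theorem bracket_gg' [IsAlgClosed K] (hss : HasProj R)
    (hPT : ∀ (m : ℕ) (φ : MultilinearMap K (fun _ : Fin m × Fin 2 => X) K),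
      IsTate R χ m φ → φ ∈ Submodule.span K (PT R χ m)) {L : Submodule K (Module.End K X)}
    (hgg : L ≤ gg R χ) (hbr : ∀ x ∈ L, ∀ y ∈ L, x * y - y * x ∈ L)
    (hc : ∀ (s : Γ), ∀ x ∈ L, R s * x * R s⁻¹ ∈ L) {x z : Module.End K X}
    (hx : x ∈ L) (hz : z ∈ gg R χ) : x * z - z * x ∈ L := by
  classical
  have hfd : FiniteDimensional K X := Module.Finite.of_basis Fr.e
  obtain ⟨pj, hpj1, hpj2, hpj3⟩ := exists_PI (R := R) (L)
    (fun x hx h => tr_nondeg' Fr hss hgg hbr hc hx h) hc
  -- bilinear forms and endomorphisms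
  let al : MultilinearMap K (fun _ : Fin 2 => X) K →ₗ[K] Module.End K X :=
    { toFun := fun φ => Fr.e.constr K fun x =>
        ∑ y, (jj K Fr.sg (Fr.inv y) * φ ![Fr.e x, Fr.e y]) • Fr.e (Fr.inv y)
      map_add' := by
        intro a b
        refine Fr.e.ext fun x => ?_
        rw [LinearMap.add_apply, Basis.constr_basis, Basis.constr_basis, Basis.constr_basis,
          ← Finset.sum_add_distrib]
        refine Finset.sum_congr rfl fun y _ => ?_
        rw [add_apply, mul_add, add_smul]
      map_smul' := by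
        intro c a
        refine Fr.e.ext fun x => ?_
        rw [LinearMap.smul_apply, Basis.constr_basis, Basis.constr_basis, Finset.smul_sum]
        refine Finset.sum_congr rfl fun y _ => ?_
        rw [smul_apply, smul_smul, smul_eq_mul, RingHom.id_apply, mul_left_comm] }
  let be : Module.End K X →ₗ[K] MultilinearMap K (fun _ : Fin 2 => X) K :=
    { toFun := fun a => bil2 (Fr.ω.comp a)
      map_add' := by
        intro a b
        ext v
        rw [add_apply, bil2_apply, bil2_apply, bil2_apply, LinearMap.comp_apply,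
          LinearMap.comp_apply, LinearMap.comp_apply, LinearMap.add_apply, map_add,
          LinearMap.add_apply]
      map_smul' := by
        intro c a
        ext v
        rw [RingHom.id_apply, smul_apply, bil2_apply, bil2_apply,
          LinearMap.comp_apply, LinearMap.comp_apply, LinearMap.smul_apply, map_smul,
          LinearMap.smul_apply] }
  have hbe : ∀ a v, be a v = Fr.ω (a (v 0)) (v 1) := fun _ _ => rfl
  have hu0 : ∀ a b c : X, Function.update ![a, b] 0 c = ![c, b] := by
    intro a b c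
    funext i
    fin_cases i <;> rfl
  have hu1 : ∀ a b c : X, Function.update ![a, b] 1 c = ![a, c] := by
    intro a b c
    funext i
    fin_cases i <;> rfl
  have hal : ∀ φ u w, Fr.ω (al φ u) w = φ ![u, w] := by
    intro φ u w
    let Bφ : X →ₗ[K] X →ₗ[K] K := LinearMap.mk₂ K (fun u w => φ ![u, w])
      (fun a b w => by
        have h := φ.map_update_add ![a, w] 0 a b
        rwa [hu0, hu0, hu0] at h)
      (fun c a w => by
        have h := φ.map_update_smul ![a, w] 0 c a
        rwa [hu0, hu0] at h)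
      (fun u a b => by
        have h := φ.map_update_add ![u, a] 1 a b
        rwa [hu1, hu1, hu1] at h)
      (fun c u a => by
        have h := φ.map_update_smul ![u, a] 1 c a
        rwa [hu1, hu1] at h)
    have h : Fr.ω.comp (al φ) = Bφ := by
      refine Fr.e.ext fun x => Fr.e.ext fun y => ?_
      change Fr.ω ((Fr.e.constr K _) (Fr.e x)) (Fr.e y) = φ ![Fr.e x, Fr.e y]
      rw [Basis.constr_basis, map_sum, LinearMap.sum_apply, Finset.sum_eq_single y]
      · rw [map_smul, LinearMap.smul_apply, Fr.hω, JJ, Fr.inv_inv, if_pos rfl, smul_eq_mul]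
        rcases Fr.jj_one (Fr.inv y) with h | h <;> rw [h] <;> ring
      · intro b _ hb
        rw [map_smul, LinearMap.smul_apply, Fr.hω, JJ, Fr.inv_inv, if_neg (Ne.symm hb), smul_zero]
      · intro h
        exact absurd (Finset.mem_univ _) h
    exact congrArg (fun f : X →ₗ[K] X →ₗ[K] K => f u w) h
  have hba : ∀ φ, be (al φ) = φ := by
    intro φ
    ext v
    rw [hbe, hal]
    congr 1
    funext i
    fin_cases i <;> rfl
  have hab : ∀ a, al (be a) = a := by
    intro a
    refine LinearMap.ext fun u => sub_eq_zero.1 (Fr.nondeg_left _ fun w => ?_)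
    rw [map_sub, LinearMap.sub_apply, hal, hbe]
    exact sub_self _
  let P : Module.End K (MultilinearMap K (fun _ : Fin 2 => X) K) := be.comp (pj.comp al)
  have hPbe : ∀ a, P (be a) = be (pj a) := by
    intro a
    change be (pj (al (be a))) = _
    rw [hab]
  have hRi' : ∀ (s : Γ) (v : X), R s (R s⁻¹ v) = v := fun s v => by
    rw [← Module.End.mul_apply, ← map_mul, mul_inv_cancel, map_one]; rfl
  have hTT : ∀ (s : Γ) a, TT (R s) (be a) = χ s • be (R s⁻¹ * a * R s) := by
    intro s a
    ext v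
    rw [TT_apply, smul_apply, hbe, hbe, smul_eq_mul, ← Fr.weil]
    change _ = Fr.ω (R s (R s⁻¹ (a (R s (v 0))))) (R s (v 1))
    rw [hRi']
  have hP : ∀ s ∈ (⊤ : Subgroup Γ), ∀ φ, P (TT (R s) φ) = TT (R s) (P φ) := by
    intro s _ φ
    rw [← hba φ, hPbe, hTT, hTT, map_smul, hPbe]
    congr 2
    have h1 := hpj3 s⁻¹ (al φ)
    rw [_root_.inv_inv] at h1
    exact h1
  have h1 := Fr.comm_gg hPT ⊤ inferInstance P hP hz (be x)
  rw [hPbe, hpj2 x hx] at h1
  have h2 : dF z (be x) = be (x * z - z * x) := by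
    ext v
    rw [dF_apply, Fin.sum_univ_two, hbe, hbe, hbe, Function.update_self, Function.update_self,
      Function.update_of_ne (by decide), Function.update_of_ne (by decide), LinearMap.sub_apply,
      map_sub, LinearMap.sub_apply, Module.End.mul_apply, Module.End.mul_apply]
    linear_combination hz _ Fr.omega_tate (x (v 0)) (v 1)
  rw [h2, hPbe] at h1
  have h3 := congrArg al h1
  rw [hab, hab] at h3
  rw [← h3]
  exact hpj1 _


/-- The values of the bilinear Tate forms on a class. -/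
theorem class_left {B : X →ₗ[K] X →ₗ[K] K} {c : Q → K}
    (hc : ∀ x y, B (Fr.e x) (Fr.e y) = c (Fr.cls x) * JJ Fr.inv (jj K Fr.sg) x y) {q : Q} {u : X}
    (hu : Fr.pr q u = u) (w : X) : B u w = c q * Fr.ω u w := by
  conv_lhs => rw [← hu, ← Fr.e.sum_repr u]
  conv_rhs => rw [← hu, ← Fr.e.sum_repr u]
  simp only [map_sum, map_smul, LinearMap.sum_apply, LinearMap.smul_apply, smul_eq_mul,
    Finset.mul_sum]
  refine Finset.sum_congr rfl fun x _ => ?_
  rw [Fr.pr_e]
  split_ifs with h
  · rw [Fr.tate2_left hc, h]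
    ring
  · rw [map_zero, map_zero, LinearMap.zero_apply]
    ring

theorem class_right {B : X →ₗ[K] X →ₗ[K] K} {c : Q → K}
    (hc : ∀ x y, B (Fr.e x) (Fr.e y) = c (Fr.cls x) * JJ Fr.inv (jj K Fr.sg) x y) {q : Q} {u : X}
    (hu : Fr.pr q u = u) (w : X) : B w u = -(c q * Fr.ω u w) := by
  conv_lhs => rw [← hu, ← Fr.e.sum_repr u]
  conv_rhs => rw [← hu, ← Fr.e.sum_repr u]
  simp only [map_sum, map_smul, LinearMap.sum_apply, LinearMap.smul_apply, smul_eq_mul,
    Finset.mul_sum, ← Finset.sum_neg_distrib]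
  refine Finset.sum_congr rfl fun x _ => ?_
  rw [Fr.pr_e]
  split_ifs with h
  · rw [Fr.tate2_right hc, h]
    ring
  · rw [map_zero, map_zero, LinearMap.zero_apply]
    ring

theorem SS_class {q : Q} {u v : X} (hu : Fr.pr q u = u) (hv : Fr.pr q v = v) :
    SS Fr.ω u v ∈ gg R χ := by
  intro B hB x w
  obtain ⟨c, hc⟩ := Fr.tate2 hB
  rw [SS_apply, SS_apply, map_add, map_add, map_smul, map_smul, map_smul, map_smul,
    LinearMap.add_apply, LinearMap.smul_apply, LinearMap.smul_apply, class_left Fr hc hu,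
    class_left Fr hc hv, class_right Fr hc hu, class_right Fr hc hv]
  simp only [smul_eq_mul]
  ring

theorem SS_smul_left (ω : X →ₗ[K] X →ₗ[K] K) (a : K) (u v : X) :
    SS ω (a • u) v = a • SS ω u v := by
  refine LinearMap.ext fun x => ?_
  rw [LinearMap.smul_apply, SS_apply, SS_apply, map_smul, LinearMap.smul_apply, smul_eq_mul]
  module

theorem SS_add_left (ω : X →ₗ[K] X →ₗ[K] K) (u u' v : X) :
    SS ω (u + u') v = SS ω u v + SS ω u' v := by
  refine LinearMap.ext fun x => ?_
  rw [LinearMap.add_apply, SS_apply, SS_apply, SS_apply, map_add, LinearMap.add_apply]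
  module

/-- The bracket with an element of the Lie algebra. -/
theorem bracket_SS {x : Module.End K X} (hx : x ∈ gg R χ) (u v : X) :
    x * SS Fr.ω u v - SS Fr.ω u v * x = SS Fr.ω (x u) v + SS Fr.ω u (x v) := by
  refine LinearMap.ext fun w => ?_
  have h1 := hx _ Fr.omega_tate u w
  have h2 := hx _ Fr.omega_tate v w
  rw [LinearMap.sub_apply, LinearMap.add_apply, Module.End.mul_apply, Module.End.mul_apply,
    SS_apply, SS_apply, SS_apply, SS_apply, map_add, map_smul, map_smul]
  have h3 : Fr.ω u (x w) = -Fr.ω (x u) w := by linear_combination h1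
  have h4 : Fr.ω v (x w) = -Fr.ω (x v) w := by linear_combination h2
  rw [h3, h4]
  module

/-- A nonzero vector in a class has a partner. -/
theorem exists_partner {q : Q} {u : X} (hu : Fr.pr q u = u) (hu0 : u ≠ 0) :
    ∃ t, Fr.pr q t = t ∧ Fr.ω u t = 1 := by
  obtain ⟨w, hw⟩ : ∃ w, Fr.ω u w ≠ 0 := by
    by_contra hcon
    push Not at hcon
    exact hu0 (Fr.nondeg_left u hcon)
  have h1 : Fr.ω u (Fr.pr q w) = Fr.ω u w := by
    rw [← Fr.pr_adj, hu]
  refine ⟨(Fr.ω u w)⁻¹ • Fr.pr q w, ?_, ?_⟩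
  · rw [map_smul, Fr.pr_pr]
  · rw [map_smul, h1, smul_eq_mul, inv_mul_cancel₀ hw]

/-- **An ideal which acts nontrivially on a class contains the symplectic Lie algebra of the
class.** -/
theorem full_of_ideal {L : Submodule K (Module.End K X)} (hgg : L ≤ gg R χ)
    (hid : ∀ x ∈ L, ∀ z ∈ gg R χ, x * z - z * x ∈ L) {q : Q} {x : Module.End K X} (hx : x ∈ L)
    {v : X} (hv : Fr.pr q v = v) (hxv : x v ≠ 0) (u w : X) (hu : Fr.pr q u = u)
    (hw : Fr.pr q w = w) : SS Fr.ω u w ∈ L := by
  have hxq : ∀ u, Fr.pr q u = u → Fr.pr q (x u) = x u := by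
    intro u hu
    rw [← Fr.gg_pr (hgg hx), hu]
  have hbr : ∀ y ∈ L, ∀ u w, Fr.pr q u = u → Fr.pr q w = w →
      SS Fr.ω (y u) w + SS Fr.ω u (y w) ∈ L := by
    intro y hy u w hu hw
    rw [← bracket_SS Fr (hgg hy)]
    exact hid y hy _ (SS_class Fr hu hw)
  have half : ∀ z, z + z ∈ L → z ∈ L := by
    intro z hz
    have h1 : z = (2 : K)⁻¹ • (z + z) := by
      rw [← two_smul K z, smul_smul, inv_mul_cancel₀ two_ne_zero, one_smul]
    rw [h1]
    exact L.smul_mem _ hz
  have hdiag : ∀ y ∈ L, ∀ u, Fr.pr q u = u → SS Fr.ω (y u) u ∈ L := by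
    intro y hy u hu
    apply half
    have h1 := hbr y hy u u hu hu
    rwa [SS_comm Fr.ω u (y u)] at h1
  -- from `SS p p`
  have key : ∀ p, Fr.pr q p = p → p ≠ 0 → SS Fr.ω p p ∈ L → ∀ u w, Fr.pr q u = u →
      Fr.pr q w = w → SS Fr.ω u w ∈ L := by
    intro p hp hp0 hpp
    obtain ⟨t0, ht0, hpt0⟩ := exists_partner Fr hp hp0
    have h1 : ∀ t, Fr.pr q t = t → Fr.ω p t ≠ 0 → SS Fr.ω p t ∈ L := by
      intro t ht hpt
      have h2 := hdiag _ hpp t ht
      rw [SS_apply, ← add_smul, SS_smul_left] at h2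
      have h3 : Fr.ω p t + Fr.ω p t ≠ 0 := by
        rw [← two_mul]
        exact mul_ne_zero two_ne_zero hpt
      have h4 := L.smul_mem (Fr.ω p t + Fr.ω p t)⁻¹ h2
      rwa [smul_smul, inv_mul_cancel₀ h3, one_smul] at h4
    have h2 : ∀ t, Fr.pr q t = t → SS Fr.ω p t ∈ L := by
      intro t ht
      by_cases hpt : Fr.ω p t = 0
      · have h3 := h1 (t + t0) (by rw [map_add, ht, ht0]) (by
          rw [map_add, hpt, zero_add, hpt0]
          exact one_ne_zero)
        have h4 := h1 t0 ht0 (by rw [hpt0]; exact one_ne_zero)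
        rw [SS_comm, SS_add_left, SS_comm, SS_comm Fr.ω t0 p] at h3
        have h5 := L.sub_mem h3 h4
        rwa [add_sub_cancel_right] at h5
      · exact h1 t ht hpt
    have h3 : ∀ t t', Fr.pr q t = t → Fr.pr q t' = t' → Fr.ω p t' ≠ 0 → SS Fr.ω t t' ∈ L := by
      intro t t' ht ht' hpt'
      have h4 := hdiag _ (h2 t ht) t' ht'
      rw [SS_apply, SS_add_left, SS_smul_left, SS_smul_left] at h4
      have h5 := L.sub_mem h4 (L.smul_mem (Fr.ω t t') (h2 t' ht'))
      rw [add_sub_cancel_right] at h5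
      have h6 := L.smul_mem (Fr.ω p t')⁻¹ h5
      rwa [smul_smul, inv_mul_cancel₀ hpt', one_smul] at h6
    intro u w hu hw
    by_cases hpw : Fr.ω p w = 0
    · have h4 := h3 u (w + t0) hu (by rw [map_add, hw, ht0]) (by
        rw [map_add, hpw, zero_add, hpt0]
        exact one_ne_zero)
      have h5 := h3 u t0 hu ht0 (by rw [hpt0]; exact one_ne_zero)
      rw [SS_comm, SS_add_left, SS_comm, SS_comm Fr.ω t0 u] at h4
      have h6 := L.sub_mem h4 h5
      rwa [add_sub_cancel_right] at h6
    · exact h3 u w hu hw hpw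
  -- a vector which is not an eigenvector
  by_cases hex : ∃ u, Fr.pr q u = u ∧ ∀ c : K, x u ≠ c • u
  · obtain ⟨u0, hu0, hne⟩ := hex
    have hp := hxq u0 hu0
    have hp0 : x u0 ≠ 0 := fun h => hne 0 (by rw [h, zero_smul])
    have hpu : SS Fr.ω (x u0) u0 ∈ L := hdiag x hx u0 hu0
    -- `t` with `ω p t = 0` and `ω u t ≠ 0`
    obtain ⟨t, ht, hpt, hut⟩ : ∃ t, Fr.pr q t = t ∧ Fr.ω (x u0) t = 0 ∧ Fr.ω u0 t ≠ 0 := by
      by_contra hcon
      push Not at hcon
      obtain ⟨t0, ht0, hpt0⟩ := exists_partner Fr hp hp0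
      apply hne (Fr.ω u0 t0)⁻¹
      have h1 : u0 - Fr.ω u0 t0 • x u0 = 0 := by
        refine Fr.nondeg_left _ fun w => ?_
        rw [map_sub, map_smul, LinearMap.sub_apply, LinearMap.smul_apply, smul_eq_mul]
        have h2 := hcon (Fr.pr q w - Fr.ω (x u0) w • t0) (by
          rw [map_sub, map_smul, Fr.pr_pr, ht0]) (by
          rw [map_sub, map_smul, ← Fr.pr_adj, hp, hpt0, smul_eq_mul, mul_one, sub_self])
        rw [map_sub, map_smul, ← Fr.pr_adj, hu0, smul_eq_mul] at h2
        linear_combination h2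
      have h3 : u0 ≠ 0 := by
        rintro rfl
        exact hp0 (map_zero _)
      have h4 : Fr.ω u0 t0 ≠ 0 := by
        intro h
        rw [h, zero_smul, sub_zero] at h1
        exact h3 h1
      rw [sub_eq_zero] at h1
      calc x u0 = (Fr.ω u0 t0)⁻¹ • (Fr.ω u0 t0 • x u0) := by
            rw [smul_smul, inv_mul_cancel₀ h4, one_smul]
        _ = (Fr.ω u0 t0)⁻¹ • u0 := by rw [← h1]
    have h1 : ∀ t, Fr.pr q t = t → Fr.ω (x u0) t = 0 → Fr.ω u0 t ≠ 0 → SS Fr.ω (x u0) t ∈ L := by
      intro t ht hpt hut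
      have h2 := hdiag _ hpu t ht
      rw [SS_apply, hpt, zero_smul, zero_add, SS_smul_left] at h2
      have h3 := L.smul_mem (Fr.ω u0 t)⁻¹ h2
      rwa [smul_smul, inv_mul_cancel₀ hut, one_smul] at h3
    refine key _ hp hp0 ?_ u w hu hw
    -- vary `t`
    by_cases hup : Fr.ω u0 (x u0) = 0
    · have h2 := h1 (t + x u0) (by rw [map_add, ht, hp]) (by rw [map_add, hpt, Fr.halt, add_zero])
        (by rw [map_add, hup, add_zero]; exact hut)
      have h3 := h1 t ht hpt hut
      rw [SS_comm, SS_add_left, SS_comm Fr.ω t] at h2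
      have h4 := L.sub_mem h2 h3
      rwa [add_sub_cancel_left] at h4
    · exact h1 _ hp (Fr.halt _) hup
  · push Not at hex
    exfalso
    -- `x` is a scalar on the class
    obtain ⟨c, hc⟩ := hex v hv
    have hv0 : v ≠ 0 := by
      rintro rfl
      exact hxv (map_zero _)
    obtain ⟨t, ht, hvt⟩ := exists_partner Fr hv hv0
    obtain ⟨d, hd⟩ := hex t ht
    obtain ⟨b, hb⟩ := hex (v + t) (by rw [map_add, hv, ht])
    have h1 : (c - b) • v = (b - d) • t := by
      rw [map_add, hc, hd, smul_add] at hb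
      have h2 : c • v - b • v = b • t - d • t := by
        rw [sub_eq_sub_iff_add_eq_add, hb]
        abel
      rw [sub_smul, sub_smul, h2]
    have h2 : c = b := by
      have h3 := congrArg (fun z => Fr.ω z t) h1
      simp only [map_smul, LinearMap.smul_apply, hvt, Fr.halt, smul_eq_mul, mul_one, mul_zero] at h3
      exact sub_eq_zero.1 h3
    have h3 : b = d := by
      rw [h2, sub_self, zero_smul] at h1
      have h4 := congrArg (fun z => Fr.ω v z) h1
      simp only [map_smul, hvt, smul_eq_mul, mul_one, map_zero] at h4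
      exact sub_eq_zero.1 h4.symm
    have h4 := hgg hx _ Fr.omega_tate v t
    rw [hc, hd, map_smul, map_smul, LinearMap.smul_apply, hvt, smul_eq_mul, smul_eq_mul, mul_one,
      mul_one, ← h3, ← h2] at h4
    have h5 : c = 0 := by
      have h6 : (2 : K) * c = 0 := by linear_combination h4
      exact (mul_eq_zero.1 h6).resolve_left two_ne_zero
    apply hxv
    rw [hc, h5, zero_smul]

end

end Pool.Agent.Y128.RT
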