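import Pool.Agent.Y128.RT.Jord

/-!
# The derivation of an element of the Lie algebra of an operator is a polynomial in the operator
-/

set_option linter.unusedSectionVars false

namespace Pool.Agent.Y128.RT

open Module Polynomial Pool.Agent.H204R3.SP Pool.Agent.H204R3.GP Pool.Agent.W529.Ta
  Pool.Agent.Y128.GT

noncomputable section

variable {K : Type} [Field K] [CharZero K] {X : Type} [AddCommGroup X] [Module K X]
  {κ : Type} [Fintype κ] [DecidableEq κ]

/-- Substitution of operators in the variables. -/
def cl (f : κ → Module.End K X) : Module.End K (MultilinearMap K (fun _ : κ => X) K) :=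
  MultilinearMap.compLinearMapₗ f

theorem cl_apply (f : κ → Module.End K X) (φ : MultilinearMap K (fun _ : κ => X) K) (v : κ → X) :
    cl f φ v = φ (fun l => f l (v l)) := rfl

theorem cl_mul (f g : κ → Module.End K X) : cl f * cl g = cl (fun l => g l * f l) := rfl

theorem cl_one : cl (fun _ : κ => (1 : Module.End K X)) = 1 := rfl

theorem cl_pow (f : κ → Module.End K X) (N : ℕ) : cl f ^ N = cl (fun l => f l ^ N) := by
  induction N with
  | zero => simp only [pow_zero]; rfl
  | succ N ih =>
    rw [pow_succ, ih, cl_mul]
    congr 1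
    funext l
    rw [← pow_succ']

/-- A nilpotent operator in one variable. -/
def at1 (k : κ) (n : Module.End K X) : κ → Module.End K X := fun l => if l = k then n else 1

theorem at1_nil (k : κ) {d : ℕ} {n : Module.End K X} (hn : n ^ d = 0) :
    IsNilpotent (cl (at1 k n)) := by
  refine ⟨d, ?_⟩
  rw [cl_pow]
  ext φ v
  rw [cl_apply]
  refine φ.map_coord_zero k ?_
  have h1 : at1 k n k = n := if_pos rfl
  rw [h1, hn]
  rfl

theorem unip_ring {A : Type} [Ring A] {p q : A} (hc : Commute p q) (hp : IsNilpotent (p - 1))
    (hq : IsNilpotent q) : IsNilpotent ((p - 1) + p * q) := by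
  have h3 : IsNilpotent (p * q) := hc.isNilpotent_mul_left hq
  have h4 : Commute (p - 1) (p * q) :=
    ((Commute.refl p).mul_right hc).sub_left (Commute.one_left _)
  exact h4.isNilpotent_add hp h3

/-- The substitution of a unipotent operator is unipotent. -/
theorem TT_unip {d : ℕ} {n : Module.End K X} (hn : n ^ d = 0) :
    IsNilpotent (TT (κ := κ) (1 + n) - 1) := by
  classical
  let P : Finset κ → Module.End K (MultilinearMap K (fun _ : κ => X) K) := fun S =>
    cl (fun l => if l ∈ S then 1 + n else 1)
  have h1 : ∀ S : Finset κ, IsNilpotent (P S - 1) := by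
    intro S
    induction S using Finset.induction_on with
    | empty =>
      have h2 : P ∅ = 1 := by
        ext φ v
        change φ _ = φ v
        congr 1
      refine ⟨1, ?_⟩
      rw [h2, pow_one]
      exact sub_self (1 : Module.End K (MultilinearMap K (fun _ : κ => X) K))
    | insert a S ha ih =>
      have h2 : P (insert a S) - 1 = (P S - 1) + P S * cl (at1 a n) := by
        ext φ v
        change φ (fun l => (if l ∈ insert a S then 1 + n else 1 : Module.End K X) (v l)) - φ v =
          (φ (fun l => (if l ∈ S then 1 + n else 1 : Module.End K X) (v l)) - φ v) +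
          φ (fun l => at1 a n l ((if l ∈ S then 1 + n else 1 : Module.End K X) (v l)))
        have h3 : (fun l => (if l ∈ insert a S then 1 + n else 1 : Module.End K X) (v l)) =
            Function.update (fun l => (if l ∈ S then 1 + n else 1 : Module.End K X) (v l)) a
              (v a + n (v a)) := by
          funext l
          by_cases hl : l = a
          · subst hl
            rw [Function.update_self, if_pos (Finset.mem_insert_self _ _)]
            rfl
          · rw [Function.update_of_ne hl]
            by_cases hlS : l ∈ S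
            · rw [if_pos hlS, if_pos (Finset.mem_insert_of_mem hlS)]
            · rw [if_neg hlS, if_neg (fun h => (Finset.mem_insert.1 h).elim hl hlS)]
        have h4 : (fun l => (if l ∈ S then 1 + n else 1 : Module.End K X) (v l)) =
            Function.update (fun l => (if l ∈ S then 1 + n else 1 : Module.End K X) (v l)) a
              (v a) := by
          funext l
          by_cases hl : l = a
          · subst hl
            rw [Function.update_self, if_neg ha]
            rfl
          · rw [Function.update_of_ne hl]
        have h5 : (fun l => at1 a n l ((if l ∈ S then 1 + n else 1 : Module.End K X) (v l))) =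
            Function.update (fun l => (if l ∈ S then 1 + n else 1 : Module.End K X) (v l)) a
              (n (v a)) := by
          funext l
          by_cases hl : l = a
          · subst hl
            rw [Function.update_self, at1, if_pos rfl, if_neg ha]
            rfl
          · rw [Function.update_of_ne hl, at1, if_neg hl]
            rfl
        rw [h3, h5, MultilinearMap.map_update_add, ← h4]
        ring
      have hc : Commute (P S) (cl (at1 a n)) := by
        change P S * cl (at1 a n) = cl (at1 a n) * P S
        simp only [P]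
        rw [cl_mul, cl_mul]
        congr 1
        funext l
        simp only [at1]
        split_ifs <;> simp [mul_add, add_mul]
      rw [h2]
      exact unip_ring (A := Module.End K (MultilinearMap K (fun _ : κ => X) K)) hc ih
        (at1_nil a hn)
  have h2 := h1 Finset.univ
  have h3 : P Finset.univ = TT (κ := κ) (1 + n) := by
    ext φ v
    change φ (fun l => (if l ∈ Finset.univ then 1 + n else 1 : Module.End K X) (v l)) =
      φ (fun l => (1 + n) (v l))
    congr 1
    funext l
    rw [if_pos (Finset.mem_univ _)]
  rwa [h3] at h2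

/-- Interpolation. -/
theorem exists_interp (S : Finset K) (c : K → K) : ∃ P : K[X], ∀ z ∈ S, P.eval z = c z := by
  classical
  refine ⟨Lagrange.interpolate S id c, fun z hz => ?_⟩
  exact Lagrange.eval_interpolate_at_node (v := id) c (Set.injOn_id _) hz

section diag

variable {m : ℕ} {b : Basis (Fin m) K X} {μ : Fin m → K} {s : Module.End K X}
  (hs : ∀ i, s (b i) = μ i • b i)

include hs in
theorem TT_diag (φ : MultilinearMap K (fun _ : κ => X) K) (I : κ → Fin m) :
    TT s φ (fun k => b (I k)) = (∏ k, μ (I k)) * φ (fun k => b (I k)) := by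
  rw [TT_apply]
  simp only [hs]
  rw [MultilinearMap.map_smul_univ, smul_eq_mul]

include hs in
/-- Functions of the substitution of a diagonal operator. -/
theorem diag_poly (c : K → K) : ∃ P : K[X], ∀ (φ : MultilinearMap K (fun _ : κ => X) K)
    (I : κ → Fin m), (aeval (TT s) P φ) (fun k => b (I k)) =
      c (∏ k, μ (I k)) * φ (fun k => b (I k)) := by
  classical
  obtain ⟨P, hP⟩ := exists_interp (Finset.univ.image fun I : κ → Fin m => ∏ k, μ (I k)) c
  refine ⟨P, fun φ I => ?_⟩
  rw [aeval_diag b (TT_diag hs) P φ I, hP _ (Finset.mem_image_of_mem _ (Finset.mem_univ I))]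

include hs in
theorem TT_semisimple [FiniteDimensional K X] :
    (TT (κ := κ) s).IsSemisimple := by
  classical
  let S := Finset.univ.image fun I : κ → Fin m => ∏ k, μ (I k)
  have h1 : aeval (TT (κ := κ) s) (∏ z ∈ S, (Polynomial.X - C z : K[X])) = 0 := by
    refine LinearMap.ext fun φ => Basis.ext_multilinear (fun _ => b) fun I => ?_
    rw [aeval_diag b (TT_diag hs), LinearMap.zero_apply, zero_apply]
    have h2 : (∏ z ∈ S, (Polynomial.X - C z : K[X])).eval (∏ k, μ (I k)) = 0 := by
      rw [eval_prod]
      refine Finset.prod_eq_zero (Finset.mem_image_of_mem _ (Finset.mem_univ I)) ?_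
      rw [eval_sub, eval_X, eval_C, sub_self]
    rw [h2, zero_mul]
  refine Module.End.isSemisimple_of_squarefree_aeval_eq_zero ?_ h1
  have h2 : (∏ z ∈ S, (Polynomial.X - C z : K[X])).Separable :=
    Polynomial.separable_prod_X_sub_C_iff'.2 (fun x _ y _ h => h)
  exact h2.squarefree

end diag

theorem mem_adjoin_of_mem {A : Type} [Ring A] [Algebra K A] {a b c : A}
    (hb : b ∈ Algebra.adjoin K {a}) (hc : c ∈ Algebra.adjoin K {b}) : c ∈ Algebra.adjoin K {a} :=
  (Algebra.adjoin_le (Set.singleton_subset_iff.2 hb)) hc

theorem aeval_mem_adjoin {A : Type} [Ring A] [Algebra K A] (a : A) (P : K[X]) :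
    aeval a P ∈ Algebra.adjoin K {a} := by
  rw [Algebra.adjoin_singleton_eq_range_aeval]
  exact ⟨P, rfl⟩

section jordan

variable [IsAlgClosed K] [FiniteDimensional K X] {m : ℕ} {b : Basis (Fin m) K X} {μ : Fin m → K}
  {s : Module.End K X} (hs : ∀ i, s (b i) = μ i • b i) (hμ0 : ∀ i, μ i ≠ 0)
  {T n : Module.End K X} {d : ℕ} (hT : ∀ v, T v = s (v + n v)) (hc : ∀ v, s (n v) = n (s v))
  (hnd : n ^ d = 0)

include hs hT hc hnd in
/-- The substitution of the semisimple part is a polynomial in the substitution of the operator. -/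
theorem TT_s_mem : TT (κ := κ) s ∈ Algebra.adjoin K {TT (κ := κ) T} := by
  classical
  have hT' : TT (κ := κ) T = TT (1 + n) * TT s := by
    ext φ v
    change φ (fun l => T (v l)) = φ (fun l => s ((1 + n) (v l)))
    congr 1
    funext l
    rw [hT]
    rfl
  have hcom : Commute (TT (κ := κ) (1 + n)) (TT s) := by
    ext φ v
    change φ (fun l => s ((1 + n) (v l))) = φ (fun l => (1 + n) (s (v l)))
    congr 1
    funext l
    rw [LinearMap.add_apply, LinearMap.add_apply, map_add, hc]
    rfl
  have key : ∀ {A : Type} [Ring A] {p q : A}, Commute p q → IsNilpotent (p - 1) →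
      IsNilpotent ((p - 1) * q) ∧ Commute ((p - 1) * q) q ∧ p * q = (p - 1) * q + q := by
    intro A _ p q h1 h2
    refine ⟨(h1.sub_left (Commute.one_left _)).isNilpotent_mul_right h2, ?_, by noncomm_ring⟩
    exact (h1.sub_left (Commute.one_left _)).mul_left (Commute.refl q)
  obtain ⟨h1, h2, h3⟩ := key (A := Module.End K (MultilinearMap K (fun _ : κ => X) K)) hcom
    (TT_unip hnd)
  obtain ⟨n'', hn'', s'', hs'', hnil, hss, hsum⟩ :=
    Module.End.exists_isNilpotent_isSemisimple (f := TT (κ := κ) T)
  have h4 : Commute n'' s'' :=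
    Algebra.commute_of_mem_adjoin_singleton_of_commute hs''
      (Algebra.commute_of_mem_adjoin_self hn'').symm
  have h5 := Module.End.isNilpotent_isSemisimple_unique h1 (TT_semisimple hs) hnil hss h2 h4
    (by rw [← h3, ← hT', hsum])
  rw [h5.2]
  exact hs''

include hs hμ0 hT hc hnd in
theorem TT_u_mem : TT (κ := κ) (1 + n) ∈ Algebra.adjoin K {TT (κ := κ) T} := by
  classical
  obtain ⟨P, hP⟩ := diag_poly (κ := κ) hs (fun z => z⁻¹)
  have h1 : TT (κ := κ) (1 + n) = aeval (TT s) P * TT T := by
    refine LinearMap.ext fun φ => Basis.ext_multilinear (fun _ => b) fun I => ?_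
    rw [Module.End.mul_apply, hP]
    have h2 : TT T φ (fun k => b (I k)) = (∏ k, μ (I k)) * TT (1 + n) φ (fun k => b (I k)) := by
      rw [TT_apply, TT_apply, ← smul_eq_mul, ← MultilinearMap.map_smul_univ]
      congr 1
      funext l
      rw [hT, map_add, hc, hs, map_smul, LinearMap.add_apply, Module.End.one_apply, smul_add]
    rw [h2, ← mul_assoc, inv_mul_cancel₀ (Finset.prod_ne_zero_iff.2 fun k _ => hμ0 _), one_mul]
  have h3 : TT (κ := κ) s ∈ Algebra.adjoin K {TT (κ := κ) T} := TT_s_mem hs hT hc hnd
  have h4 : aeval (TT (κ := κ) s) P ∈ Algebra.adjoin K {TT (κ := κ) s} :=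
    aeval_mem_adjoin (A := Module.End K (MultilinearMap K (fun _ : κ => X) K)) _ P
  have h5 : aeval (TT (κ := κ) s) P ∈ Algebra.adjoin K {TT (κ := κ) T} :=
    mem_adjoin_of_mem (A := Module.End K (MultilinearMap K (fun _ : κ => X) K)) h3 h4
  have h6 : TT (κ := κ) T ∈ Algebra.adjoin K {TT (κ := κ) T} :=
    Algebra.subset_adjoin (Set.mem_singleton _)
  rw [h1]
  exact (Algebra.adjoin K {TT (κ := κ) T}).mul_mem h5 h6

end jordan

/-- The derivative of the expansion. -/
theorem lg_deriv {d : ℕ} {n : Module.End K X} (hn : n ^ d = 0)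
    (φ : MultilinearMap K (fun _ : κ => X) K) (v : κ → X) :
    (derivative (∑ r : κ → Fin d, (∏ l, bp K (r l)) *
      C (φ (fun l => (n ^ (r l : ℕ)) (v l))))).eval 0 = dF (lg d n) φ v := by
  classical
  have h3 : ∀ r : κ → Fin d, (derivative ((∏ l, bp K (r l)) *
      C (φ (fun l => (n ^ (r l : ℕ)) (v l))))).eval 0 =
      ∑ l0, (∏ l, (if l = l0 then (derivative (bp K (r l))).eval 0 else (bp K (r l)).eval 0)) *
        φ (fun l => (n ^ (r l : ℕ)) (v l)) := by
    intro r
    rw [derivative_mul, derivative_C, mul_zero, add_zero, eval_mul, eval_C,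
      derivative_prod_finset, eval_finsetSum, Finset.sum_mul]
    refine Finset.sum_congr rfl fun l0 _ => ?_
    rw [eval_mul, eval_prod, ← Finset.prod_erase_mul Finset.univ _ (Finset.mem_univ l0), if_pos rfl]
    congr 2
    refine Finset.prod_congr rfl fun l hl => ?_
    rw [if_neg (Finset.ne_of_mem_erase hl)]
  rw [derivative_sum, eval_finsetSum, Finset.sum_congr rfl (fun r _ => h3 r), Finset.sum_comm,
    dF_apply]
  refine Finset.sum_congr rfl fun l0 _ => ?_
  rw [← expand n φ (fun l j => if l = l0 then (derivative (bp K j)).eval 0 else (bp K j).eval 0)]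
  congr 1
  funext l
  by_cases hl : l = l0
  · subst hl
    rw [Function.update_self, lg_apply]
    refine Finset.sum_congr rfl fun j _ => ?_
    rw [if_pos rfl]
  · rw [Function.update_of_ne hl]
    have hd : v l = 0 ∨ 0 < d := by
      rcases Nat.eq_zero_or_pos d with h | h
      · left
        rw [h, pow_zero] at hn
        have h4 := congrArg (fun T : Module.End K X => T (v l)) hn
        exact h4
      · exact Or.inr h
    rcases hd with hd | hd
    · rw [hd]
      simp
    · rw [Finset.sum_eq_single (⟨0, hd⟩ : Fin d)]
      · rw [if_neg hl, bp_eval_zero, if_pos rfl, one_smul]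
        rfl
      · intro j _ hj
        rw [if_neg hl, bp_eval_zero, if_neg, zero_smul]
        intro h
        exact hj (Fin.ext h)
      · intro h
        exact absurd (Finset.mem_univ _) h

/-- **The derivation of the logarithm is the logarithm of the substitution.** -/
theorem dF_lg {d D : ℕ} {n : Module.End K X} (hn : n ^ d = 0)
    (hD : (TT (κ := κ) (1 + n) - 1) ^ D = 0) :
    dF (lg d n) = lg D (TT (κ := κ) (1 + n) - 1) := by
  classical
  ext φ v
  rw [← lg_deriv hn]
  let N : Module.End K (MultilinearMap K (fun _ : κ => X) K) := TT (κ := κ) (1 + n) - 1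
  have hD' : N ^ D = 0 := hD
  have h1 : (∑ r : κ → Fin d, (∏ l, bp K (r l)) * C (φ (fun l => (n ^ (r l : ℕ)) (v l)))) =
      ∑ j : Fin D, bp K j * C (((N ^ (j : ℕ)) φ) v) := by
    refine Polynomial.eq_of_infinite_eval_eq _ _ ?_
    refine Set.infinite_of_injective_forall_mem (f := fun k : ℕ => (k : K))
      Nat.cast_injective fun k => ?_
    change Polynomial.eval (k : K) _ = Polynomial.eval (k : K) _
    have h2 : φ (fun l => ∑ j : Fin d, (k.choose j : K) • (n ^ (j : ℕ)) (v l)) =
        TT ((1 + n) ^ k) φ v := by
      rw [TT_apply, unip_pow' hn]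
      congr 1
      funext l
      rw [LinearMap.sum_apply]
      rfl
    have h3 : TT (κ := κ) ((1 + n) ^ k) = (1 + N) ^ k := by
      rw [TT_pow]
      congr 1
      simp only [N]
      abel
    rw [expand n φ (fun _ j => (k.choose j : K)), h3, unip_pow' hD', LinearMap.sum_apply,
      sum_apply] at h2
    rw [eval_finsetSum, eval_finsetSum]
    have h4 : ∀ r : κ → Fin d, Polynomial.eval (k : K) ((∏ l, bp K (r l)) *
        C (φ (fun l => (n ^ (r l : ℕ)) (v l)))) =
        (∏ l, ((k.choose (r l) : ℕ) : K)) * φ (fun l => (n ^ (r l : ℕ)) (v l)) := by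
      intro r
      rw [eval_mul, eval_C, eval_prod]
      congr 1
      exact Finset.prod_congr rfl fun l _ => bp_eval _ _
    have h5 : ∀ j : Fin D, Polynomial.eval (k : K) (bp K j * C (((N ^ (j : ℕ)) φ) v)) =
        (((k.choose j : K) • N ^ (j : ℕ)) φ) v := by
      intro j
      rw [eval_mul, eval_C, bp_eval]
      rfl
    rw [Finset.sum_congr rfl (fun r _ => h4 r), h2]
    exact (Finset.sum_congr rfl (fun j _ => h5 j)).symm
  rw [h1, derivative_sum, eval_finsetSum, lg_apply, sum_apply]
  refine Finset.sum_congr rfl fun j _ => ?_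
  rw [derivative_mul, derivative_C, mul_zero, add_zero, eval_mul, eval_C, smul_apply, smul_eq_mul]

end

end Pool.Agent.Y128.RT
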