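import Pool.Agent.Y128.GT.Cl

/-!
# Forms fixed by a unipotent operator
-/

set_option linter.unusedSectionVars false

namespace Pool.Agent.Y128.RT

open Module Polynomial Pool.Agent.H204R3.SP Pool.Agent.H204R3.GP Pool.Agent.W529.Ta
  Pool.Agent.Y128.GT

noncomputable section

variable {K : Type} [Field K] [CharZero K] {X : Type} [AddCommGroup X] [Module K X]

/-- The binomial polynomials. -/
def bp (K : Type) [Field K] (j : ℕ) : K[X] := C ((j.factorial : K)⁻¹) * descPochhammer K j

theorem bp_eval (k j : ℕ) : (bp K j).eval (k : K) = (k.choose j : K) := by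
  unfold bp
  rw [eval_mul, eval_C, descPochhammer_eval_eq_descFactorial, Nat.descFactorial_eq_factorial_mul_choose,
    Nat.cast_mul, ← mul_assoc, inv_mul_cancel₀ (Nat.cast_ne_zero.2 (Nat.factorial_ne_zero j)),
    one_mul]

theorem bp_zero : bp K 0 = 1 := by
  unfold bp
  simp

theorem bp_one : bp K 1 = (Polynomial.X : K[X]) := by
  unfold bp
  simp

theorem bp_eval_zero (j : ℕ) : (bp K j).eval 0 = if j = 0 then 1 else 0 := by
  have h := bp_eval (K := K) 0 j
  rw [Nat.cast_zero] at h
  rw [h]
  cases j with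
  | zero => simp
  | succ j => simp

/-- The powers of a unipotent operator. -/
theorem unip_pow' {d : ℕ} {n : Module.End K X} (hn : n ^ d = 0) (k : ℕ) :
    (1 + n) ^ k = ∑ j : Fin d, (k.choose j : K) • n ^ (j : ℕ) := by
  have h1 : (1 + n) ^ k = ∑ j ∈ Finset.range (k + 1), (k.choose j : K) • n ^ j := by
    rw [add_comm, (Commute.one_right n).add_pow]
    refine Finset.sum_congr rfl fun j _ => ?_
    rw [one_pow, mul_one, ← nsmul_eq_mul', Nat.cast_smul_eq_nsmul]
  rw [h1, Fin.sum_univ_eq_sum_range (fun j => (k.choose j : K) • n ^ j) d]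
  have h2 : ∀ a b : ℕ, (∀ j, b ≤ j → (k.choose j : K) • n ^ j = 0) → 
      ∑ j ∈ Finset.range (max a b), (k.choose j : K) • n ^ j =
        ∑ j ∈ Finset.range b, (k.choose j : K) • n ^ j := by
    intro a b hb
    symm
    refine Finset.sum_subset (fun x hx => ?_) fun x _ hx => ?_
    · rw [Finset.mem_range] at hx ⊢
      exact lt_of_lt_of_le hx (le_max_right _ _)
    · rw [Finset.mem_range, not_lt] at hx
      exact hb x hx
  have hb1 : ∀ j, d ≤ j → (k.choose j : K) • n ^ j = 0 := by
    intro j hj
    rw [pow_eq_zero_of_le hj hn, smul_zero]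
  have hb2 : ∀ j, k + 1 ≤ j → (k.choose j : K) • n ^ j = 0 := by
    intro j hj
    rw [Nat.choose_eq_zero_of_lt (by omega), Nat.cast_zero, zero_smul]
  rw [← h2 (k + 1) d hb1, ← h2 d (k + 1) hb2, max_comm]

/-- Expansion of a form in combinations of powers. -/
theorem expand {κ : Type} [Fintype κ] [DecidableEq κ] {d : ℕ} (n : Module.End K X)
    (φ : MultilinearMap K (fun _ : κ => X) K) (a : κ → Fin d → K) (v : κ → X) :
    φ (fun l => ∑ j : Fin d, a l j • (n ^ (j : ℕ)) (v l)) =
      ∑ r : κ → Fin d, (∏ l, a l (r l)) * φ (fun l => (n ^ (r l : ℕ)) (v l)) := by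
  rw [MultilinearMap.map_sum]
  refine Finset.sum_congr rfl fun r _ => ?_
  rw [MultilinearMap.map_smul_univ, smul_eq_mul]

/-- The logarithm. -/
def lg (d : ℕ) (n : Module.End K X) : Module.End K X :=
  ∑ j : Fin d, ((derivative (bp K j)).eval 0) • n ^ (j : ℕ)

theorem lg_apply {d : ℕ} (n : Module.End K X) (v : X) :
    lg d n v = ∑ j : Fin d, ((derivative (bp K j)).eval 0) • (n ^ (j : ℕ)) v := by
  rw [lg, LinearMap.sum_apply]
  rfl

theorem lg_last {d : ℕ} (hd : 2 ≤ d) (n : Module.End K X) {v : X} (hv : n (n v) = 0) :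
    lg d n v = n v := by
  rw [lg_apply, Finset.sum_eq_single (⟨1, hd⟩ : Fin d)]
  · change ((derivative (bp K 1)).eval 0) • (n ^ 1) v = n v
    rw [bp_one, derivative_X, eval_one, one_smul, pow_one]
  · intro j _ hj
    rcases j with ⟨j, hjd⟩
    change ((derivative (bp K j)).eval 0) • (n ^ j) v = 0
    match j with
    | 0 => rw [bp_zero, derivative_one, eval_zero, zero_smul]
    | 1 => exact absurd rfl hj
    | j + 2 =>
      rw [pow_add, Module.End.mul_apply]
      have h1 : (n ^ 2) v = 0 := by rw [pow_two]; exact hv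
      rw [h1, map_zero, smul_zero]
  · intro h
    exact absurd (Finset.mem_univ _) h

/-- **The logarithm kills the fixed forms.** -/
theorem lg_kill {κ : Type} [Fintype κ] [DecidableEq κ] {d : ℕ} {n : Module.End K X}
    (hn : n ^ d = 0) (φ : MultilinearMap K (fun _ : κ => X) K) (hφ : TT (1 + n) φ = φ) :
    dF (lg d n) φ = 0 := by
  have hφk : ∀ k : ℕ, TT ((1 + n) ^ k) φ = φ := by
    intro k
    rw [TT_pow]
    induction k with
    | zero => rfl
    | succ k ih => rw [pow_succ, Module.End.mul_apply, hφ, ih]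
  ext v
  rw [zero_apply, dF_apply]
  let Qp : K[X] := ∑ r : κ → Fin d, (∏ l, bp K (r l)) * C (φ (fun l => (n ^ (r l : ℕ)) (v l))) -
    C (φ v)
  have h1 : Qp = 0 := by
    refine Polynomial.eq_zero_of_infinite_isRoot _ ?_
    refine Set.infinite_of_injective_forall_mem (f := fun k : ℕ => (k : K))
      Nat.cast_injective fun k => ?_
    change Qp.eval (k : K) = 0
    have h2 : φ (fun l => ∑ j : Fin d, (k.choose j : K) • (n ^ (j : ℕ)) (v l)) = φ v := by
      have h3 := congrArg (fun ψ : MultilinearMap K (fun _ : κ => X) K => ψ v) (hφk k)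
      rw [TT_apply, unip_pow' hn] at h3
      rw [← h3]
      congr 1
      funext l
      rw [LinearMap.sum_apply]
      rfl
    rw [expand n φ (fun _ j => (k.choose j : K))] at h2
    simp only [Qp]
    rw [eval_sub, eval_C, eval_finsetSum, sub_eq_zero, ← h2]
    refine Finset.sum_congr rfl fun r _ => ?_
    rw [eval_mul, eval_C, eval_prod]
    congr 1
    refine Finset.prod_congr rfl fun l _ => ?_
    exact bp_eval _ _
  have h2 : (derivative Qp).eval 0 = 0 := by rw [h1, derivative_zero, eval_zero]
  simp only [Qp] at h2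
  rw [derivative_sub, derivative_C, sub_zero, derivative_sum, eval_finsetSum] at h2
  have h3 : ∀ r : κ → Fin d, (derivative ((∏ l, bp K (r l)) *
      C (φ (fun l => (n ^ (r l : ℕ)) (v l))))).eval 0 =
      ∑ l0, (∏ l, (if l = l0 then (derivative (bp K (r l))).eval 0 else (bp K (r l)).eval 0)) *
        φ (fun l => (n ^ (r l : ℕ)) (v l)) := by
    intro r
    rw [derivative_mul, derivative_C, mul_zero, add_zero, eval_mul, eval_C,
      derivative_prod_finset, eval_finsetSum, Finset.sum_mul]
    refine Finset.sum_congr rfl fun l0 _ => ?_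
    rw [eval_mul, eval_prod, ← Finset.prod_erase_mul Finset.univ _ (Finset.mem_univ l0), if_pos rfl]
    congr 2
    refine Finset.prod_congr rfl fun l hl => ?_
    rw [if_neg (Finset.ne_of_mem_erase hl)]
  rw [Finset.sum_congr rfl (fun r _ => h3 r), Finset.sum_comm] at h2
  rw [← h2]
  refine Finset.sum_congr rfl fun l0 _ => ?_
  rw [← expand n φ (fun l j => if l = l0 then (derivative (bp K j)).eval 0 else (bp K j).eval 0)]
  congr 1
  funext l
  by_cases hl : l = l0
  · subst hl
    rw [Function.update_self, lg_apply]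
    refine Finset.sum_congr rfl fun j _ => ?_
    rw [if_pos rfl]
  · rw [Function.update_of_ne hl]
    have hd : v l = 0 ∨ 0 < d := by
      rcases Nat.eq_zero_or_pos d with h | h
      · left
        rw [h, pow_zero] at hn
        have h4 := congrArg (fun T : Module.End K X => T (v l)) hn
        exact h4
      · exact Or.inr h
    rcases hd with hd | hd
    · rw [hd]
      simp
    · rw [Finset.sum_eq_single (⟨0, hd⟩ : Fin d)]
      · rw [if_neg hl, bp_eval_zero, if_pos rfl, one_smul]
        rfl
      · intro j _ hj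
        rw [if_neg hl, bp_eval_zero, if_neg, zero_smul]
        intro h
        exact hj (Fin.ext h)
      · intro h
        exact absurd (Finset.mem_univ _) h

end

end Pool.Agent.Y128.RT
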