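import Pool.Agent.Y128.RT.Desc

/-!
# Tate classes on the products of the powers of an abelian variety with another variety
-/

set_option linter.unusedSectionVars false

namespace Pool.Agent.Y128.RT

open Module TensorProduct Pool.Agent.H204R3.SP Pool.Agent.H204R3.GP
  Pool.Agent.W529.Ta Pool.Agent.W522.U Pool.Agent.TH776.FM Pool.Agent.TH776.FL
  Pool.Agent.Y128.GT

noncomputable section

variable {k V M Γ : Type} [Field k] [CharZero k] [AddCommGroup V] [Module k V]
  [FiniteDimensional k V] [AddCommGroup M] [Module k M] [Group Γ] {ρ : Representation k Γ V}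
  {χ : Γ →* k} {τ : Representation k Γ M} {ω : V →ₗ[k] V →ₗ[k] k}

/-- The components of a Tate class with values. -/
theorem components (h : IsTateModule ρ χ ω) (hT : TateGeneratedInDegreeTwo ρ χ)
    (hS : SymplecticConstituents ρ χ) (hN : CentralElementsActInfinitely ρ χ τ) {n a : ℕ}
    (f : (Fin n → V) [⋀^Fin a]→ₗ[k] M) (hf : IsTateClassWithValues ρ τ f)
    (m' : Dual k M) :
    (∀ m : ℕ, a = 2 * m →
      m'.compAlternatingMap f ∈ Submodule.span k (divisorProducts ρ χ n a m)) ∧
    (Odd a → m'.compAlternatingMap f = 0) := by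
  classical
  let Kb := AlgebraicClosure k
  let b := Module.finBasis k V
  have hss : HasProj (bcr ρ Kb) := hasProj_bcr ρ Kb h.semisimple
  have hPT : ∀ (m : ℕ) (φ : MultilinearMap Kb (fun _ : Fin m × Fin 2 => Kb ⊗[k] V) Kb),
      IsTate (bcr ρ Kb) (bcc χ Kb) m φ → φ ∈ Submodule.span Kb (PT (bcr ρ Kb) (bcc χ Kb) m) :=
    fun m φ hφ => ascend b ρ χ (fun ψ hψ => multi_of_gen ρ χ hT m ψ hψ) φ hφ
  obtain ⟨Δf, hΔf, hf⟩ := hf
  let Us : (Fin a → Fin n) → Submodule Kb (MultilinearMap Kb (fun _ : Fin a => Kb ⊗[k] V) Kb) :=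
    fun w => Submodule.span Kb (Set.range fun μ : Dual k M =>
      bcm (Ω := Kb) b (Lw (k := k) (V := V) w (μ.compAlternatingMap f)))
  have hpull : ∀ s ∈ Δf, ∀ μ : Dual k M, pull (ρ s) (μ.compAlternatingMap f) =
      (μ.comp (τ s)).compAlternatingMap f := by
    intro s hs μ
    ext v
    change μ (f (fun l i => ρ s (v l i))) = μ (τ s (f v))
    rw [hf s hs]
  have hTT : ∀ w, ∀ s ∈ Δf, ∀ μ : Dual k M,
      TT (bcr ρ Kb s) (bcm b (Lw (k := k) (V := V) w (μ.compAlternatingMap f))) =
        bcm b (Lw (k := k) (V := V) w ((μ.comp (τ s)).compAlternatingMap f)) := by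
    intro w s hs μ
    rw [bcm_TT, ← Lw_pull, hpull s hs]
  have key : ∀ w : Fin a → Fin n,
      (∀ m : ℕ, Fintype.card (Fin a) = 2 * m → Us w ≤ IJ (bcr ρ Kb) (bcc χ Kb) m (Fin a)) ∧
      (Odd (Fintype.card (Fin a)) → Us w ≤ ⊥) := by
    intro w
    refine closed_rel hss hPT hS Δf hΔf (Fin a) (Us w) ?_ ?_
    · intro s hs φ hφ
      induction hφ using Submodule.span_induction with
      | zero => rw [map_zero]; exact Submodule.zero_mem _
      | add x y _ _ hx hy => rw [map_add]; exact Submodule.add_mem _ hx hy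
      | smul r x _ hx => rw [map_smul]; exact Submodule.smul_mem _ _ hx
      | mem F hF =>
        obtain ⟨μ, rfl⟩ := hF
        exact Submodule.subset_span ⟨μ.comp (τ s), (hTT w s hs μ).symm⟩
    · intro W hW
      obtain ⟨g, hg, hinf⟩ := inf_ext (Ω := Kb) hN W hW.1
      obtain ⟨N0, hN0, hgN0⟩ := exists_pow_mem Δf hΔf g
      obtain ⟨Δ, hΔ, hgΔ⟩ := hg.pow N0
      refine ⟨g ^ N0, Δ ⊓ Δf, hgN0, inferInstance, ?_, ?_⟩
      · intro s hs φ hφ
        induction hφ using Submodule.span_induction with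
        | zero => simp only [map_zero]
        | add x y _ _ hx hy => simp only [map_add, hx, hy]
        | smul r x _ hx => simp only [map_smul, hx]
        | mem F hF =>
          obtain ⟨μ, rfl⟩ := hF
          change TT (bcr ρ Kb (g ^ N0)) (TT (bcr ρ Kb s)
              (bcm b (Lw (k := k) (V := V) w (μ.compAlternatingMap f)))) =
            TT (bcr ρ Kb s) (TT (bcr ρ Kb (g ^ N0))
              (bcm b (Lw (k := k) (V := V) w (μ.compAlternatingMap f))))
          rw [hTT w _ hs.2 μ, hTT w _ hgN0 μ, hTT w _ hgN0, hTT w _ hs.2]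
          have h1 : (μ.comp (τ s)).comp (τ (g ^ N0)) = (μ.comp (τ (g ^ N0))).comp (τ s) := by
            have h2 := hgΔ s hs.1
            rw [LinearMap.comp_assoc, LinearMap.comp_assoc]
            congr 1
            exact h2.symm
          rw [h1]
      · intro N hN1
        obtain ⟨u, hu, hu'⟩ := hinf (N0 * N) (Nat.mul_pos (Nat.pos_of_ne_zero hN0) hN1)
        refine ⟨u, hu, ?_⟩
        have e1 : g ^ (2 * (N0 * N)) = (g ^ N0) ^ (2 * N) := by rw [← pow_mul]; congr 1; ring
        rw [← map_pow, ← e1, map_pow (bcc χ Kb), bcc_apply, ← pow_mul]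
        exact hu'
  obtain ⟨π, hπ⟩ := (Algebra.linearMap k Kb).exists_leftInverse_of_injective
    (LinearMap.ker_eq_bot.2 (FaithfulSMul.algebraMap_injective k Kb))
  have hπ1 : π 1 = 1 := by
    have h1 := LinearMap.congr_fun hπ (1 : k)
    rwa [LinearMap.comp_apply, Algebra.linearMap_apply, map_one, LinearMap.id_apply] at h1
  constructor
  · intro m ha
    refine alt_IJ χ ρ _ ?_
    refine IJ_decomp (piRep (fun _ : Fin n => ρ)) χ ρ χ
      (fun a => LinearMap.single k (fun _ : Fin n => V) a)
      (fun a => LinearMap.proj a) (fun x => ?_) (fun a c B hB => ?_)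
      (m'.compAlternatingMap f).toMultilinearMap (fun w => ?_)
    · funext a
      rw [Finset.sum_apply]
      change ∑ c, (Pi.single c (x c) : Fin n → V) a = x a
      rw [Finset.sum_eq_single a]
      · rw [Pi.single_eq_same]
      · intro c _ hc
        rw [Pi.single_eq_of_ne (Ne.symm hc)]
      · intro hn
        exact absurd (Finset.mem_univ _) hn
    · obtain ⟨Δ, hΔ, hB⟩ := hB
      exact ⟨Δ, hΔ, fun s hs u v => hB s hs _ _⟩
    · have h1 := IJ_desc b ρ χ m (Fin a) _ ((key w).1 m (by rw [Fintype.card_fin, ha])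
        (Submodule.subset_span ⟨m', rfl⟩)) π
      have h2 : desc π (bcm (Ω := Kb) b (Lw (k := k) (V := V) w (m'.compAlternatingMap f))) =
          Lw (k := k) (V := V) w (m'.compAlternatingMap f) := by
        rw [desc_bcm, hπ1, one_smul]
      rw [h2] at h1
      exact h1
  · intro hodd
    have h1 : ∀ w : Fin a → Fin n, Lw (k := k) (V := V) w (m'.compAlternatingMap f) = 0 := by
      intro w
      have h2 := (key w).2 (by rwa [Fintype.card_fin]) (Submodule.subset_span ⟨m', rfl⟩)
      rw [Submodule.mem_bot] at h2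
      have h3 : desc π (bcm (Ω := Kb) b (Lw (k := k) (V := V) w (m'.compAlternatingMap f))) =
          Lw (k := k) (V := V) w (m'.compAlternatingMap f) := by
        rw [desc_bcm, hπ1, one_smul]
      change bcm (Ω := Kb) b (Lw (k := k) (V := V) w (m'.compAlternatingMap f)) = 0 at h2
      rw [h2, map_zero] at h3
      exact h3.symm
    ext v
    have h2 : v = fun l => ∑ c, (Pi.single c (v l c) : Fin n → V) := by
      funext l i
      rw [Finset.sum_apply, Finset.sum_eq_single i]
      · rw [Pi.single_eq_same]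
      · intro c _ hc
        rw [Pi.single_eq_of_ne (Ne.symm hc)]
      · intro hn
        exact absurd (Finset.mem_univ _) hn
    have h3 : (m'.compAlternatingMap f) (fun l => ∑ c, (Pi.single c (v l c) : Fin n → V)) =
        ∑ w : Fin a → Fin n, (m'.compAlternatingMap f)
          (fun l => (Pi.single (w l) (v l (w l)) : Fin n → V)) :=
      (m'.compAlternatingMap f).toMultilinearMap.map_sum _
    rw [h2, h3, AlternatingMap.zero_apply]
    refine Finset.sum_eq_zero fun w _ => ?_
    exact congrArg (fun ψ : MultilinearMap k (fun _ : Fin a => V) k => ψ (fun l => v l (w l))) (h1 w)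

theorem alt_sum_apply {M : Type} [AddCommGroup M] [Module k M] {n a : ℕ} {J : Type} (S : Finset J)
    (F : J → (Fin n → V) [⋀^Fin a]→ₗ[k] M) (v : Fin a → Fin n → V) :
    (∑ j ∈ S, F j) v = ∑ j ∈ S, F j v := by
  classical
  induction S using Finset.induction_on with
  | empty => rfl
  | insert j S hj ih => rw [Finset.sum_insert hj, Finset.sum_insert hj, AlternatingMap.add_apply, ih]

/-- The tensor product of a form and a vector. -/
def tens {n a : ℕ} (p : (Fin n → V) [⋀^Fin a]→ₗ[k] k) (y : M) : (Fin n → V) [⋀^Fin a]→ₗ[k] M :=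
  (LinearMap.toSpanSingleton k M y).compAlternatingMap p

theorem tens_apply {n a : ℕ} (p : (Fin n → V) [⋀^Fin a]→ₗ[k] k) (y : M) (v : Fin a → Fin n → V) :
    tens p y v = p v • y := rfl

/-- The wedge products of Tate classes of degree two. -/
def wedges (ρ : Representation k Γ V) (χ : Γ →* k) (n a m : ℕ) :
    Set ((Fin n → V) [⋀^Fin a]→ₗ[k] k) :=
  {p | ∃ (e : Fin m × Fin 2 ≃ Fin a) (B : Fin m → (Fin n → V) [⋀^Fin 2]→ₗ[k] k),
    (∀ l, IsTateClass ρ χ 1 (B l)) ∧
    ∀ v : Fin a → Fin n → V, p v = ∑ σ : Equiv.Perm (Fin a), ((Equiv.Perm.sign σ : ℤ) : k) *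
      ∏ l, B l ![v (σ (e (l, 0))), v (σ (e (l, 1)))]}

theorem span_wedges {n a m : ℕ} (ha : a = 2 * m) :
    Submodule.span k (divisorProducts ρ χ n a m) ≤ Submodule.span k (wedges ρ χ n a m) := by
  classical
  rw [Submodule.span_le]
  rintro g ⟨j, e, B, η, hB, hg⟩
  have hj : j = 0 := by
    have h1 := Fintype.card_congr e
    rw [Fintype.card_sum, Fintype.card_prod, Fintype.card_fin, Fintype.card_fin, Fintype.card_fin,
      Fintype.card_fin] at h1
    omega
  subst hj
  let e' : Fin m × Fin 2 ≃ Fin a := (Equiv.sumEmpty _ _).symm.trans e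
  let p : (Fin n → V) [⋀^Fin a]→ₗ[k] k := MultilinearMap.alternatization
    ((Pool.Agent.H204R3.CM.prodMap (fun l => (B l).toMultilinearMap)).domDomCongr e')
  have hp : ∀ v : Fin a → Fin n → V, p v = ∑ σ : Equiv.Perm (Fin a),
      ((Equiv.Perm.sign σ : ℤ) : k) * ∏ l, B l ![v (σ (e' (l, 0))), v (σ (e' (l, 1)))] := by
    intro v
    change MultilinearMap.alternatization _ v = _
    rw [MultilinearMap.alternatization_apply]
    refine Finset.sum_congr rfl fun σ _ => ?_
    rw [Units.smul_def, zsmul_eq_mul, MultilinearMap.domDomCongr_apply,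
      MultilinearMap.domDomCongr_apply, Pool.Agent.H204R3.CM.prodMap_apply]
    congr 1
    refine Finset.prod_congr rfl fun l _ => ?_
    refine congrArg (B l) ?_
    funext ε
    fin_cases ε <;> rfl
  have h1 : g = η (fun r => r.elim0) • p := by
    ext v
    rw [hg, AlternatingMap.smul_apply, hp, smul_eq_mul, Finset.mul_sum]
    refine Finset.sum_congr rfl fun σ _ => ?_
    have h2 : (fun r : Fin 0 => v (σ (e (Sum.inr r)))) = fun r => r.elim0 := by
      funext r
      exact r.elim0
    rw [h2]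
    have h3 : ∀ x : Fin m × Fin 2, e' x = e (Sum.inl x) := fun x => rfl
    simp only [h3]
    ring
  rw [h1]
  exact Submodule.smul_mem _ _ (Submodule.subset_span ⟨e', B, hB, hp⟩)

theorem wedges_tate {n a m : ℕ} {p : (Fin n → V) [⋀^Fin a]→ₗ[k] k} (hp : p ∈ wedges ρ χ n a m) :
    ∃ Δ : Subgroup Γ, Δ.FiniteIndex ∧ ∀ s ∈ Δ, ∀ v : Fin a → Fin n → V,
      p (fun l i => ρ s (v l i)) = χ s ^ m * p v := by
  classical
  obtain ⟨e, B, hB, hp⟩ := hp
  choose Δ hΔ hB using hB
  refine ⟨⨅ l, Δ l, Subgroup.finiteIndex_iInf hΔ, fun s hs v => ?_⟩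
  rw [hp, hp, Finset.mul_sum]
  refine Finset.sum_congr rfl fun σ _ => ?_
  have h1 : ∀ l, B l ![fun i => ρ s (v (σ (e (l, 0))) i), fun i => ρ s (v (σ (e (l, 1))) i)] =
      χ s * B l ![v (σ (e (l, 0))), v (σ (e (l, 1)))] := by
    intro l
    have h2 := hB l s (Subgroup.mem_iInf.1 hs l) ![v (σ (e (l, 0))), v (σ (e (l, 1)))]
    rw [pow_one] at h2
    rw [← h2]
    refine congrArg (B l) ?_
    funext ε
    fin_cases ε <;> rfl
  rw [Finset.prod_congr rfl (fun l _ => h1 l), Finset.prod_mul_distrib, Finset.prod_const,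
    Finset.card_univ, Fintype.card_fin]
  ring

/-- **Tate classes on the products of the powers of an abelian variety with another variety.** -/
theorem main_rel [FiniteDimensional k M] (h : IsTateModule ρ χ ω)
    (hT : TateGeneratedInDegreeTwo ρ χ)
    (hS : SymplecticConstituents ρ χ) (hN : CentralElementsActInfinitely ρ χ τ) {n a : ℕ}
    (f : (Fin n → V) [⋀^Fin a]→ₗ[k] M) (hf : IsTateClassWithValues ρ τ f) :
    f ∈ Submodule.span k (productClasses ρ χ τ n a) := by
  classical
  rcases Nat.even_or_odd a with heven | hodd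
  swap
  · have h1 : f = 0 := by
      ext v
      rw [AlternatingMap.zero_apply]
      refine (Module.forall_dual_apply_eq_zero_iff k _).1 fun m' => ?_
      exact congrArg (fun ψ : (Fin n → V) [⋀^Fin a]→ₗ[k] k => ψ v)
        ((components h hT hS hN f hf m').2 hodd)
    rw [h1]
    exact Submodule.zero_mem _
  obtain ⟨m, hm⟩ := heven
  have ha : a = 2 * m := by omega
  have hfd := finite_alt (k := k) (V := V) n a
  obtain ⟨P, hP1, hP2, hP3⟩ := exists_linearIndependent k (wedges ρ χ n a m)
  have hPfin : Finite P := hP3.finite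
  have hPft : Fintype P := Fintype.ofFinite P
  let bM := Module.finBasis k M
  let bP := Basis.span hP3
  have hmem : ∀ m' : Dual k M, m'.compAlternatingMap f ∈ Submodule.span k (Set.range
      (Subtype.val : P → (Fin n → V) [⋀^Fin a]→ₗ[k] k)) := by
    intro m'
    rw [Subtype.range_coe, hP2]
    exact span_wedges ha ((components h hT hS hN f hf m').1 m ha)
  have hcoef : ∀ m' : Dual k M, ∃ c : P → k, m'.compAlternatingMap f = ∑ p, c p • p.1 := by
    intro m'
    obtain ⟨c, hc⟩ := (Submodule.mem_span_range_iff_exists_fun k).1 (hmem m')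
    exact ⟨c, hc.symm⟩
  choose c hc using hcoef
  let y : P → M := fun p => ∑ i, c (bM.coord i) p • bM i
  have hfy : f = ∑ p, tens p.1 (y p) := by
    ext v
    rw [alt_sum_apply]
    conv_lhs => rw [← bM.sum_repr (f v)]
    have h1 : ∀ i, bM.repr (f v) i = ∑ p : P, c (bM.coord i) p * p.1 v := by
      intro i
      have h2 := congrArg (fun ψ : (Fin n → V) [⋀^Fin a]→ₗ[k] k => ψ v) (hc (bM.coord i))
      change bM.coord i (f v) = (∑ p : P, c (bM.coord i) p • p.1) v at h2
      rw [alt_sum_apply] at h2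
      exact h2
    have h2 : ∀ p : P, tens p.1 (y p) v = ∑ i, (c (bM.coord i) p * p.1 v) • bM i := by
      intro p
      rw [tens_apply, Finset.smul_sum]
      refine Finset.sum_congr rfl fun i _ => ?_
      rw [smul_smul, mul_comm]
    rw [Finset.sum_congr rfl (fun p _ => h2 p), Finset.sum_comm]
    refine Finset.sum_congr rfl fun i _ => ?_
    rw [h1, Finset.sum_smul]
  -- the coefficients are Tate classes
  obtain ⟨Δf, hΔf, hf⟩ := hf
  choose Δp hΔp hΔp' using fun p : P => wedges_tate (hP1 p.2)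
  have hy : ∀ p : P, ∃ Δ : Subgroup Γ, Δ.FiniteIndex ∧ ∀ s ∈ Δ, τ s (y p) = χ s ^ m • y p := by
    intro p0
    have hfi := Subgroup.finiteIndex_iInf hΔp
    refine ⟨Δf ⊓ ⨅ p, Δp p, inferInstance, fun s hs => ?_⟩
    have h1 : ∀ v : Fin a → Fin n → V, ∑ p : P, p.1 v • (τ s (y p) - χ s ^ m • y p) = 0 := by
      intro v
      have h2 := hf s hs.1 v
      rw [hfy, alt_sum_apply, alt_sum_apply, map_sum] at h2
      simp only [tens_apply, map_smul] at h2
      simp only [smul_sub, Finset.sum_sub_distrib]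
      rw [← h2, ← Finset.sum_sub_distrib]
      refine Finset.sum_eq_zero fun p _ => ?_
      rw [hΔp' p s (Subgroup.mem_iInf.1 hs.2 p), smul_smul, mul_comm, sub_self]
    have h3 : τ s (y p0) - χ s ^ m • y p0 = 0 := by
      refine (Module.forall_dual_apply_eq_zero_iff k _).1 fun m' => ?_
      have h4 : ∑ p : P, m' (τ s (y p) - χ s ^ m • y p) • p.1 = 0 := by
        ext v
        rw [alt_sum_apply, AlternatingMap.zero_apply, ← map_zero m', ← h1 v, map_sum]
        refine Finset.sum_congr rfl fun p _ => ?_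
        rw [map_smul, AlternatingMap.smul_apply, smul_eq_mul, smul_eq_mul, mul_comm]
      exact (Fintype.linearIndependent_iff.1 hP3) _ h4 p0
    exact sub_eq_zero.1 h3
  rw [hfy]
  refine Submodule.sum_mem _ fun p _ => Submodule.subset_span ?_
  obtain ⟨e, B, hB, hp⟩ := hP1 p.2
  refine ⟨m, e, B, y p, hB, hy p, fun v => ?_⟩
  rw [tens_apply, hp]

end

end Pool.Agent.Y128.RT
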